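import Pool.Agent.Lib.MP_5c318e_ag.Z.DDefs

/-! Definitions for the inequality with the variation. -/

set_option autoImplicit false

namespace Pool.Agent.Lib.MP_5c318e_ag

open MeasureTheory Set Filter Topology Matrix

variable {δ ε γ ν K M : Type} [Fintype δ] [DecidableEq δ] [Fintype ε] [DecidableEq ε] [Fintype γ]
  [DecidableEq γ] [Fintype ν] [DecidableEq ν]
  [Field K] [Algebra ℂ K] [Field M] [Algebra ℂ M] [Algebra K M]

/-- `EndOut`, and the sections stay regular after multiplication by the coordinates `w` -/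
def EndV (d : Dat (ε ⊕ γ) K ν M) : Prop :=
  ∃ q : ℕ, 0 < q ∧ ∃ T : Set M, T.Nonempty ∧
    (∀ s ∈ T, s ≠ 0 ∧ ∀ η, Plu d.B.der d.k η → Plu d.T.X.der q (s * algebraMap K M η) ∧
      ∀ i, Plu d.T.X.der q (s * algebraMap K M (η * d.B.z (Sum.inl i)))) ∧
    ∀ φ ψ, Plu d.T.dx d.m φ → Plu d.T.dx d.m ψ →
      IsAlgebraic (IntermediateField.adjoin K {g | ∃ s ∈ T, ∃ t ∈ T, g = s / t}) (φ / ψ)

theorem EndV.out {d : Dat (ε ⊕ γ) K ν M} (h : EndV d) : EndOut d :=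
  let ⟨q, hq, T, h1, h2, h3⟩ := h
  ⟨q, hq, T, h1, fun s hs => ⟨(h2 s hs).1, fun η hη => ((h2 s hs).2 η hη).1⟩, h3⟩

/-- local holomorphic frames in which the norm is constant in all directions of the base -/
structure Dat.ParAll (d : Dat δ K ν M) (g : d.B.O) (a1 : ℕ) : Prop where
  fr : ∀ b0, ∃ (U : Set (Pt d.B.O)) (A : Pt d.B.O → Matrix (Fin d.r) (Fin d.r) ℂ), IsOpen U ∧ b0 ∈ U ∧
    (∀ b ∈ U, (A b).det ≠ 0 ∧ ∀ i j,
      DifferentiableAt ℂ (fun z => A (d.B.D.sec b z) i j) (d.B.D.π b)) ∧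
    ∀ b ∈ U, ∀ b' ∈ U, (∀ a, d.Nn b (A b *ᵥ a) = d.Nn b' (A b' *ᵥ a)) ∧
      (A b).det ^ a1 * b' g = (A b').det ^ a1 * b g
  iso : ∀ b (n : ℕ), n ≠ 0 → {A : Matrix (Fin d.r) (Fin d.r) ℂ |
    (∀ a, d.Nn b (A *ᵥ a) = d.Nn b a) ∧ A.det ^ n = 1}.Finite

/-- the norm on the fibres is constant in the frame `τ` -/
def Dat.Const (d : Dat δ K ν M) : Prop := ∀ b b' a, d.Nn b a = d.Nn b' a

end Pool.Agent.Lib.MP_5c318e_ag
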