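import Pool.Agent.Lib.MP_5c318e_ag.Va.VDefs
import Pool.Agent.Lib.MP_5c318e_ag.S.APlu
import Pool.Agent.Lib.MP_5c318e_ag.Fo.Spec

/-! Isotrivial families; the statement over curves; agreement of maps on a family. -/

set_option autoImplicit false

namespace Pool.Agent.Lib.MP_5c318e_ag

open Set

/-- the image of the subfield `k` -/
abbrev img (k : Type) {M Om : Type} [Field k] [Field M] [Field Om] [Algebra k M] (ψ : M →+* Om) :
    Subfield Om := (ψ.comp (algebraMap k M)).fieldRange

/-- the geometric generic fibre is defined over the constants -/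
def Isotriv (K M : Type) [Field K] [Field M] [Algebra ℂ M] [Algebra K M] : Prop :=
  ∀ (Om : Type) [Field Om] [IsAlgClosed Om] (ψ : M →+* Om),
    Fo.DO (img ℂ ψ) (acl (img K ψ)) (ψ.fieldRange ⊔ acl (img K ψ))

/-- families over curves with constant norm are isotrivial -/
def CurveIso (ν : Type) [Fintype ν] [DecidableEq ν] : Prop :=
  ∀ (K M : Type) [Field K] [Algebra ℂ K] [Field M] [Algebra ℂ M] [Algebra K M]
    [IsScalarTower ℂ K M] (d : Dat Unit K ν M), d.Const → Isotriv K M

/-- `S` agrees with the embedding of fields on the elements that define the family -/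
structure Fam.Agree {δ ν K M M1 : Type} [Fintype δ] [DecidableEq δ] [Fintype ν] [DecidableEq ν]
    [Field K] [Algebra ℂ K] [Field M] [Algebra ℂ M] [Algebra K M] [Field M1] [Algebra ℂ M1]
    [Algebra M M1] {B : Cht δ K} (T : Fam B ν M) (S : T.X.O →ₐ[ℂ] M1) : Prop where
  x : ∀ i, S (T.X.z (Sum.inr i)) = algebraMap M M1 (T.x i)
  w : S T.finX.w = algebraMap M M1 T.finX.w
  Δ : ∀ n, S (T.inc (T.finX.Δ.coeff n)) = algebraMap M M1 (T.inc (T.finX.Δ.coeff n))
  f : ∀ l n, S (T.inc ((T.finX.f.coeff l).coeff n)) =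
    algebraMap M M1 (T.inc ((T.finX.f.coeff l).coeff n))

/-- the forms of weight `m` give the Kodaira dimension -/
def Big (K M : Type) [Field K] [Field M] [Algebra K M] (m : ℕ) : Prop :=
  ∃ (n : ℕ) (h : Fin n → M), kod K M = ((n : Cardinal) : WithBot Cardinal) ∧
    AlgebraicIndependent K h ∧ ∀ (ι : Type) [Fintype ι] [DecidableEq ι] (D : ι → Derivation K M M),
      IsFr D → ∃ ψ, ψ ≠ 0 ∧ Plu D m ψ ∧ ∀ j, Plu D m (h j * ψ)

end Pool.Agent.Lib.MP_5c318e_ag
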