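import Pool.Agent.Lib.MP_5c318e_ag.Z.Fin

/-! Algebraic extension of the ground field of a function field. -/

set_option autoImplicit false
set_option linter.unusedSectionVars false

namespace Pool.Agent.Lib.MP_5c318e_ag

open Set Polynomial IntermediateField Module
open scoped TensorProduct

/-- a retraction onto one factor of a compositum -/
theorem exists_proj {K P Q N : Type} [Field K] [Field P] [Field Q] [Field N] [Algebra K P]
    [Algebra K Q] [Algebra P N] [Algebra Q N] [Algebra K N] [IsScalarTower K P N]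
    [IsScalarTower K Q N] (hl : ∀ t : Basis.ofVectorSpaceIndex K P → P, LinearIndependent K t →
      LinearIndependent Q (algebraMap P N ∘ t))
    (hs : Submodule.span Q (range (algebraMap P N)) = ⊤) :
    ∃ l : N →ₗ[Q] Q, l 1 = 1 ∧ ∀ a : P, l (algebraMap P N a) ∈ range (algebraMap K Q) := by
  let b := Basis.ofVectorSpace K P
  let B := Basis.mk (hl _ b.linearIndependent) (by
    rw [← hs, Submodule.span_le]
    rintro _ ⟨a, rfl⟩
    rw [range_comp]
    exact Submodule.span_subset_span K Q _ (Submodule.apply_mem_span_image_of_mem_span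
      (IsScalarTower.toAlgHom K P N).toLinearMap (b.mem_span a)))
  have key : ∀ i a, B.coord i (algebraMap P N a) = algebraMap K Q (b.coord i a) := fun i a =>
    DFunLike.congr_fun (b.ext (f₁ := (B.coord i).restrictScalars K ∘ₗ
      (IsScalarTower.toAlgHom K P N).toLinearMap) (f₂ := Algebra.linearMap K Q ∘ₗ b.coord i)
      fun j => by
        have : algebraMap P N (b j) = B j := by simp [B]
        by_cases h : j = i
        · subst h
          simp [this]
        · simp [this, h]) a
  obtain ⟨i, hi⟩ : ∃ i, b.coord i 1 ≠ 0 := by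
    by_contra! h
    exact one_ne_zero (b.forall_coord_eq_zero_iff.1 h)
  refine ⟨algebraMap K Q (b.coord i 1)⁻¹ • B.coord i, ?_,
    fun a => ⟨(b.coord i 1)⁻¹ * b.coord i a, ?_⟩⟩
  · rw [LinearMap.smul_apply, ← map_one (algebraMap P N), key, smul_eq_mul, ← map_mul,
      inv_mul_cancel₀ hi, map_one]
  · rw [LinearMap.smul_apply, key, smul_eq_mul, map_mul]

/-- Galois descent for subspaces -/
theorem gal_desc {F N k : Type} [Field F] [CharZero F] [Field N] [Field k] [Algebra F N]
    [Algebra k N] [Normal F N]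
    (hσ : ∀ (σ : N ≃ₐ[F] N) (c : k), σ (algebraMap k N c) ∈ range (algebraMap k N))
    (W : Submodule k N) (hW : ∀ σ : N ≃ₐ[F] N, ∀ y ∈ W, σ y ∈ W) {y : N} (hy : y ∈ W)
    (hs : y ∈ Submodule.span k (range (algebraMap F N))) :
    y ∈ Submodule.span k ((W : Set N) ∩ range (algebraMap F N)) := by
  classical
  have : IsGalois F N := ⟨⟩
  have : CharZero N := charZero_of_injective_algebraMap (algebraMap F N).injective
  have : CharZero k := (RingHom.charZero_iff (algebraMap k N).injective).2 inferInstance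
  obtain ⟨c, rfl⟩ := Finsupp.mem_span_range_iff_exists_finsupp.1 hs
  rw [Finsupp.sum] at hy ⊢
  generalize c.support = s at hy ⊢
  generalize (c : F → k) = c at hy ⊢
  induction s using Finset.induction_on generalizing c with
  | empty => simp
  | insert a s ha ih =>
    rw [Finset.sum_insert ha] at hy ⊢
    by_cases h0 : c a = 0
    · simp only [h0, zero_smul, zero_add] at hy ⊢
      exact ih c hy
    set y := c a • algebraMap F N a + ∑ b ∈ s, c b • algebraMap F N b
    let z := (c a)⁻¹ • y
    have hz : z ∈ W := W.smul_mem _ hy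
    have ez : z = algebraMap F N a + ∑ b ∈ s, ((c a)⁻¹ * c b) • algebraMap F N b := by
      simp only [z, y, smul_add, smul_smul, inv_mul_cancel₀ h0, one_smul, Finset.smul_sum]
    have h1 : ∀ σ : N ≃ₐ[F] N, σ z - z ∈ Submodule.span k ((W : Set N) ∩ range (algebraMap F N)) :=
      fun σ => by
        choose c' hc' using hσ σ
        have e : σ z - z = ∑ b ∈ s, (c' ((c a)⁻¹ * c b) - (c a)⁻¹ * c b) • algebraMap F N b := by
          rw [ez]
          simp only [map_add, map_sum, AlgEquiv.commutes, add_sub_add_left_eq_sub, sub_smul,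
            Finset.sum_sub_distrib]
          simp only [Algebra.smul_def, hc', map_mul σ, AlgEquiv.commutes]
        rw [e]
        exact ih _ (e ▸ sub_mem (hW σ z hz) hz)
    have hi : IsIntegral F z := Algebra.IsIntegral.isIntegral z
    let R := ((minpoly F z).aroots N).toFinset
    have hR : ∀ r, r ∈ R ↔ aeval r (minpoly F z) = 0 := fun r => by
      simp [R, minpoly.ne_zero hi]
    have h2 : ∀ r ∈ R, ∃ σ : N ≃ₐ[F] N, σ z = r := fun r hr =>
      (isConjRoot_of_aeval_eq_zero hi ((hR r).1 hr)).symm.exists_algEquiv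
    have h3 : ∑ r ∈ R, r ∈ (W : Set N) ∩ range (algebraMap F N) :=
      ⟨W.sum_mem fun r hr => (h2 r hr).elim fun σ e => e ▸ hW σ z hz,
        (InfiniteGalois.mem_range_algebraMap_iff_fixed _).2 fun σ => by
          rw [map_sum]
          exact Finset.sum_equiv σ.toEquiv (fun r => by
            rw [hR, hR]
            exact (map_eq_zero_iff _ σ.injective).symm.trans
              (by rw [← aeval_algHom_apply]; rfl)) fun _ _ => rfl⟩
    have h4 : (R.card : k) ≠ 0 :=
      Nat.cast_ne_zero.2 (Finset.card_ne_zero.2 ⟨z, (hR z).2 (minpoly.aeval F z)⟩)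
    have h5 : y = (c a * (R.card : k)⁻¹) • (∑ r ∈ R, r - ∑ r ∈ R, (r - z)) := by
      rw [Finset.sum_sub_distrib, sub_sub_cancel, Finset.sum_const, ← Nat.cast_smul_eq_nsmul k,
        smul_smul, inv_mul_cancel_right₀ h4, smul_inv_smul₀ h0]
    rw [h5]
    exact Submodule.smul_mem _ _ (sub_mem (Submodule.subset_span h3)
      (Submodule.sum_mem _ fun r hr => (h2 r hr).elim fun σ e => e ▸ h1 σ))

/-- regularity does not see an algebraic extension of the ground field -/
theorem pluD_res {k k' F ι : Type} [Field k] [CharZero k] [Field k'] [Field F] [Algebra k k']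
    [Algebra k' F] [Algebra k F] [IsScalarTower k k' F] [Algebra.IsAlgebraic k k'] [Fintype ι]
    [DecidableEq ι] {E : ι → Derivation k' F F} (hE : IsFr E) :
    IsFr (fun j => (E j).restrictScalars k) ∧
      ∀ m φ, PluD (fun j => (E j).restrictScalars k) m φ ↔ PluD E m φ := by
  let G0 : Empty → Derivation k k' k' := Empty.elim
  let G : Empty → Derivation k F F := Empty.elim
  have h0 : IsFr G0 := exists_basis_of_trdeg (ι := Empty) (by simp [trdeg_eq_zero]) |>.imp
    fun b hb => ⟨hb, by simp [Jac]⟩
  have hl : Lifts G0 G := fun j => j.elim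
  exact ⟨(h0.split hl hE).reindex (Equiv.emptySum Empty ι).symm, fun m φ =>
    (pluD_reindex (D := splitD G E) (Equiv.emptySum Empty ι).symm).trans
      ((pluD_split_iff h0 hl hE).trans (and_iff_left fun _ _ s0 => s0.elim))⟩

theorem Plu.exists_sub {k F ι : Type} [Field k] [Field F] [Algebra k F] [Fintype ι] [DecidableEq ι]
    (d : ι → Derivation k F F) (m : ℕ) : ∃ E : Submodule k F, ∀ φ, φ ∈ E ↔ Plu d m φ :=
  ⟨{ carrier := {φ | Plu d m φ}
     add_mem' := fun ha hb O hO => (ha O hO).add (hb O hO)
     zero_mem' := fun O _ => RegI.zero m O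
     smul_mem' := fun a φ h O hO => by
       rw [Algebra.smul_def]
       exact (h O hO).mem_mul (hO.const a) }, fun _ => Iff.rfl⟩

section main

variable {K K1 M M1 : Type} [Field K] [CharZero K] [Field K1] [Field M] [Field M1] [Algebra K K1]
  [Algebra K M] [Algebra K1 M1] [Algebra M M1] [Algebra K M1] [IsScalarTower K K1 M1]
  [IsScalarTower K M M1]

section ld

variable (hc : ∀ x : M, IsAlgebraic K x → x ∈ range (algebraMap K M))
include hc

theorem bc_minpoly {c : M1} (h : IsIntegral K c) :
    minpoly M c = (minpoly K c).map (algebraMap K M) := by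
  have hd := minpoly.dvd_map_of_isScalarTower K M c
  have hm := minpoly.monic (h.tower_top (A := M))
  have hl := integralClosure.mem_lifts_of_monic_of_dvd_map M (minpoly.monic h) hm hd
  obtain ⟨q, hq⟩ : minpoly M c ∈ lifts (algebraMap K M) := by
    rw [lifts_iff_coeff_lifts] at hl ⊢
    intro n
    obtain ⟨y, hy⟩ := hl n
    exact hy ▸ hc _ y.2.isAlgebraic
  have h3 : minpoly K c ∣ q := minpoly.dvd K c (by
    rw [← aeval_map_algebraMap M, show q.map (algebraMap K M) = _ from hq, minpoly.aeval])
  exact eq_of_monic_of_associated hm ((minpoly.monic h).map _) (associated_of_dvd_dvd hd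
    (hq ▸ Polynomial.map_dvd (algebraMap K M) h3))

theorem bc_ld_fin (A : IntermediateField K M1) [FiniteDimensional K A] : A.LinearDisjoint M := by
  obtain ⟨c, e⟩ := Field.exists_primitive_element K A
  have hi : IsIntegral K (c : M1) := (IsIntegral.of_finite K c).algebraMap
  have e' : A = K⟮(c : M1)⟯ := by
    rw [← lift_adjoin_simple, e, lift_top]
  rw [e']
  refine .of_basis_left (adjoin.powerBasis hi).basis ?_
  have h := linearIndependent_pow (K := M) (c : M1)
  rw [bc_minpoly hc hi, natDegree_map] at h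
  have e2 : K⟮(c : M1)⟯.val ∘ (adjoin.powerBasis hi).basis =
      fun i : Fin (adjoin.powerBasis hi).dim => (c : M1) ^ (i : ℕ) := by
    ext i
    simp
  exact e2 ▸ h

theorem bc_ld (A : IntermediateField K M1) [Algebra.IsAlgebraic K A] : A.LinearDisjoint M := by
  have : Algebra.IsIntegral K A.toSubalgebra := inferInstanceAs (Algebra.IsIntegral K A)
  refine Subalgebra.LinearDisjoint.of_linearDisjoint_finite_left _ _ fun B _ hB => ?_
  let B' := B.toIntermediateField fun x hx => B.inv_mem_of_algebraic (x := ⟨x, hx⟩)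
    (IsIntegral.of_finite K (⟨x, hx⟩ : B)).algebraMap.isAlgebraic
  have : FiniteDimensional K B' := hB
  exact bc_ld_fin hc B'

variable [Algebra.IsAlgebraic K K1]

theorem bc_ld' : (IsScalarTower.toAlgHom K K1 M1).fieldRange.LinearDisjoint M := by
  have : Algebra.IsAlgebraic K (IsScalarTower.toAlgHom K K1 M1).fieldRange :=
    (AlgEquiv.ofInjectiveField (IsScalarTower.toAlgHom K K1 M1)).isAlgebraic
  exact bc_ld hc _

variable (K1 M1) in
/-- independent families of `M / K` stay independent over `K1` -/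
theorem bc_li0 {ι : Type*} {t : ι → M} (h : LinearIndependent K t) :
    LinearIndependent K1 (algebraMap M M1 ∘ t) :=
  (bc_ld' (K1 := K1) (M1 := M1) hc).symm'.linearIndependent_left
    (h.map' _ (AlgEquiv.ofInjectiveField (IsScalarTower.toAlgHom K M M1)).toLinearEquiv.ker)

variable (M1) in
/-- independent families of `K1 / K` stay independent over `M` -/
theorem bc_li' {ι : Type*} {t : ι → K1} (h : LinearIndependent K t) :
    LinearIndependent M (algebraMap K1 M1 ∘ t) :=
  (bc_ld' (K1 := K1) (M1 := M1) hc).linearIndependent_left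
    (h.map' _ (AlgEquiv.ofInjectiveField (IsScalarTower.toAlgHom K K1 M1)).toLinearEquiv.ker)

end ld

variable [Algebra.IsAlgebraic K K1] (hgen : adjoin M (range (algebraMap K1 M1)) = ⊤)
include hgen

section
variable (K)
include K

theorem bc_ring : Algebra.adjoin M (range (algebraMap K1 M1)) = ⊤ := by
  rw [← adjoin_toSubalgebra_of_isAlgebraic, hgen, top_toSubalgebra]
  rintro _ ⟨a, rfl⟩
  exact ((Algebra.IsAlgebraic.isAlgebraic (R := K) a).algebraMap (A := M1)).tower_top M

theorem bc_alg : Algebra.IsAlgebraic M M1 := ⟨fun y => by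
  have hy : y ∈ adjoin M (range (algebraMap K1 M1)) := hgen ▸ trivial
  refine isAlgebraic_iff.1 ((isAlgebraic_adjoin ?_).isAlgebraic ⟨y, hy⟩)
  rintro _ ⟨a, rfl⟩
  exact (((Algebra.IsAlgebraic.isAlgebraic (R := K) a).algebraMap (A := M1)).tower_top
    M).isIntegral⟩

theorem bc_span' : Submodule.span M (range (algebraMap K1 M1)) = ⊤ := by
  rw [← Algebra.top_toSubmodule, ← bc_ring K hgen, Algebra.adjoin_eq_span]
  exact congrArg _ (congrArg SetLike.coe
    (Submonoid.closure_eq (algebraMap K1 M1).rangeS.toSubmonoid)).symm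

theorem bc_span0 : Submodule.span K1 (range (algebraMap M M1)) = ⊤ := by
  refine Submodule.eq_top_iff'.2 fun y => ?_
  have hy : y ∈ Submodule.span M (range (algebraMap K1 M1)) := bc_span' K hgen ▸ trivial
  suffices h : ∀ a : M, a • y ∈ Submodule.span K1 (range (algebraMap M M1)) by simpa using h 1
  induction hy using Submodule.span_induction with
  | mem y hy =>
    obtain ⟨c, rfl⟩ := hy
    intro a
    rw [Algebra.smul_def, mul_comm, ← Algebra.smul_def]
    exact Submodule.smul_mem _ _ (Submodule.subset_span ⟨a, rfl⟩)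
  | zero => simp
  | add y z _ _ h1 h2 => exact fun a => smul_add a y z ▸ add_mem (h1 a) (h2 a)
  | smul b y _ h => exact fun a => smul_smul a b y ▸ h _

end

theorem bc_basis0 {ι : Type} {x : ι → M} (hx : IsTranscendenceBasis K x) :
    IsTranscendenceBasis K1 (algebraMap M M1 ∘ x) :=
  have := bc_alg K hgen
  (Algebra.IsAlgebraic.isTranscendenceBasis_iff K K1).1 hx.algebraMap_comp

variable (hc : ∀ x : M, IsAlgebraic K x → x ∈ range (algebraMap K M))
include hc

/-- a retraction of `M1` onto `M` that maps `K1` to `K` -/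
theorem bc_proj : ∃ l : M1 →ₗ[M] M, l 1 = 1 ∧
    ∀ a : K1, l (algebraMap K1 M1 a) ∈ range (algebraMap K M) :=
  exists_proj (fun _ h => bc_li' M1 hc h) (bc_span' K hgen)

/-- `K1` is algebraically closed in `M1` -/
theorem bc_ac0 (x : M1) (hx : IsAlgebraic K1 x) : x ∈ range (algebraMap K1 M1) := by
  let A := algebraicClosure K M1
  have hK : ∀ a : K1, algebraMap K1 M1 a ∈ A := fun a =>
    mem_algebraicClosure_iff.2 (Algebra.IsAlgebraic.isAlgebraic a).algebraMap
  obtain ⟨l, h1, h2⟩ := exists_proj (K := K) (P := M) (Q := A) (N := M1) (fun _ h => bc_li0 A M1 hc h)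
    (bc_span0 K (eq_top_iff.2 (hgen ▸ adjoin.mono _ _ _ (by
      rintro _ ⟨a, rfl⟩
      exact ⟨⟨_, hK a⟩, rfl⟩))))
  have h3 : ∀ y, (l y : M1) ∈ (algebraMap K1 M1).fieldRange := fun y => by
    have hy : y ∈ Submodule.span K1 (range (algebraMap M M1)) := bc_span0 K hgen ▸ trivial
    induction hy using Submodule.span_induction with
    | mem y hy =>
      obtain ⟨a, rfl⟩ := hy
      obtain ⟨c, e⟩ := h2 a
      exact ⟨algebraMap K K1 c, by rw [← e, ← IsScalarTower.algebraMap_apply]; rfl⟩
    | zero => simp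
    | add y z _ _ h1 h2 => simpa using add_mem h1 h2
    | smul c y _ h =>
      rw [show c • y = (⟨_, hK c⟩ : A) • y from Algebra.smul_def c y, map_smul]
      exact mul_mem ⟨c, rfl⟩ h
  have := h3 ((⟨x, mem_algebraicClosure_iff.2 (hx.restrictScalars K)⟩ : A) • 1)
  rwa [map_smul, h1, smul_eq_mul, mul_one] at this

/-- smooth models extend -/
theorem SmoothModel.bc (h : SmoothModel K M) : SmoothModel K1 M1 := by
  obtain ⟨N, A, h1, h2⟩ := h
  have := bc_alg K hgen
  let f := fun i => Algebra.TensorProduct.lift (Algebra.ofId K1 M1)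
    ((IsScalarTower.toAlgHom K M M1).comp (A i).val) fun _ _ => Commute.all _ _
  have hf : ∀ i, Function.Injective (f i) := fun i => by
    let b := Basis.ofVectorSpace K (A i)
    have hl := bc_li0 K1 M1 hc (b.linearIndependent.map' (A i).val.toLinearMap
      (A i).toSubmodule.ker_subtype)
    refine LinearMap.injective_of_linearIndependent (f := (f i).toLinearMap)
      (Algebra.TensorProduct.basis K1 b).span_eq ?_
    refine (congrArg (fun v => LinearIndependent K1 v) (funext fun j => ?_)).mpr hl
    simp [f]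
  have hA : ∀ i (a : A i), algebraMap M M1 a ∈ (f i).range := fun i a => ⟨1 ⊗ₜ a, by simp [f]⟩
  refine ⟨N, fun i => (f i).range, fun i => ?_, fun O hO => ?_⟩
  · obtain ⟨_, _⟩ := h1 i
    refine ⟨.of_equiv (AlgEquiv.ofInjective _ (hf i)), IsFractionRing.of_field _ _ fun y => ?_⟩
    have hy : y ∈ Submodule.span K1 (range (algebraMap M M1)) := bc_span0 K hgen ▸ trivial
    suffices h : y ∈ (adjoin K1 ((f i).range : Set M1)) by
      obtain ⟨r, hr, s, hs, e⟩ := mem_adjoin_iff_div.1 h
      rw [Algebra.adjoin_eq] at hr hs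
      exact ⟨⟨r, hr⟩, ⟨s, hs⟩, e⟩
    refine (Submodule.span_le (p := (adjoin K1 ((f i).range : Set M1)).toSubmodule)).2 ?_ hy
    rintro _ ⟨a, rfl⟩
    obtain ⟨u, w, -, rfl⟩ := IsFractionRing.div_surjective (A := A i) a
    rw [map_div₀]
    exact (adjoin K1 ((f i).range : Set M1)).div_mem (subset_adjoin _ _ (hA i u))
      (subset_adjoin _ _ (hA i w))
  · obtain ⟨i, hi⟩ := h2 (O.comap (algebraMap M M1)) fun c => by
      rw [ValuationSubring.mem_comap, ← IsScalarTower.algebraMap_apply,
        IsScalarTower.algebraMap_apply K K1 M1]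
      exact hO _
    refine ⟨i, ?_⟩
    rintro _ ⟨z, rfl⟩
    induction z using TensorProduct.induction_on with
    | zero => simp
    | tmul a b => simpa [f] using mul_mem (hO a) (hi b b.2)
    | add y z h1 h2 => simpa using add_mem h1 h2

variable {ν : Type} [Fintype ν] [DecidableEq ν] {x : ν → M} {dx : ν → Derivation K M M}
  {dx1 : ν → Derivation K1 M1 M1}

omit hgen hc [Fintype ν] in
theorem bc_lifts (hx : Dual K x dx) (hx1 : Dual K1 (algebraMap M M1 ∘ x) dx1) :
    Lifts dx fun j => (dx1 j).restrictScalars K := fun j a =>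
  DFunLike.congr_fun (der_ext_basis hx.basis (((dx1 j).restrictScalars K).compAlgebraMap M)
    ((Algebra.linearMap M M1).compDer (dx j)) fun i => by
      have := hx1.dual j i
      simp only [Function.comp] at this
      by_cases h : j = i
      · subst h
        simp [this, hx.dual]
      · simp [this, hx.dual, h]) a

omit hc in
theorem bc_plu_up (hx : Dual K x dx) (hx1 : Dual K1 (algebraMap M M1 ∘ x) dx1) {m : ℕ} {φ : M}
    (h : Plu dx m φ) : Plu dx1 m (algebraMap M M1 φ) :=
  have := bc_alg K hgen
  have : CharZero K1 := charZero_of_injective_algebraMap (algebraMap K K1).injective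
  have h1 := pluD_res (k := K) hx1.isFr
  (plu_iff hx1.isFr).2 ((h1.2 _ _).1 ((plu_iff h1.1).1 (h.lift hx.isFr (bc_lifts hx hx1))))

omit hc in
theorem bc_plu_normal [Normal K K1] (hx : Dual K x dx) (hx1 : Dual K1 (algebraMap M M1 ∘ x) dx1)
    {m : ℕ} {φ : M1} (h : Plu dx1 m φ) :
    φ ∈ Submodule.span K1 (algebraMap M M1 '' {a | Plu dx m a}) := by
  have := bc_alg K hgen
  have : CharZero K1 := charZero_of_injective_algebraMap (algebraMap K K1).injective
  have : CharZero M := charZero_of_injective_algebraMap (algebraMap K M).injective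
  have hn : Normal M M1 := by
    refine normal_iff.2 fun y => ⟨(Algebra.IsAlgebraic.isAlgebraic y).isIntegral,
      splits_of_mem_adjoin M M1 (S := range (algebraMap K1 M1)) ?_ (hgen ▸ trivial)⟩
    rintro _ ⟨a, rfl⟩
    have hi : IsIntegral K a := (Algebra.IsAlgebraic.isAlgebraic a).isIntegral
    refine ⟨(hi.algebraMap (B := M1)).tower_top, ?_⟩
    have h1 := (Normal.splits ‹Normal K K1› a).map (algebraMap K1 M1)
    rw [Polynomial.map_map, ← IsScalarTower.algebraMap_eq, ← minpoly.algebraMap_eq
      (algebraMap K1 M1).injective] at h1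
    exact IsIntegral.minpoly_splits_tower_top' hi.algebraMap
      (by rwa [← IsScalarTower.algebraMap_eq])
  obtain ⟨f1, h1⟩ := pluD_res (k := K) hx1.isFr
  have hl := bc_lifts hx hx1
  have hx' : IsTranscendenceBasis K (algebraMap M M1 ∘ x) := hx.basis.algebraMap_comp
  have hs : ∀ (s : M1 ≃ₐ[M] M1) j a, dx1 j (s a) = s (dx1 j a) := fun s j a => by
    let d : Derivation K M1 M1 := Derivation.mk'
      ((s.symm.toLinearMap.restrictScalars K) ∘ₗ ((dx1 j).restrictScalars K : M1 →ₗ[K] M1) ∘ₗ
        (s.toLinearMap.restrictScalars K)) fun a b => by simp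
    have := der_ext_basis hx' d ((dx1 j).restrictScalars K) fun i => by
      change s.symm ((dx1 j).restrictScalars K (s (algebraMap M M1 (x i)))) =
        (dx1 j).restrictScalars K (algebraMap M M1 (x i))
      rw [s.commutes, hl, s.symm.commutes]
    exact (s.apply_symm_apply _).symm.trans (congrArg s (DFunLike.congr_fun this a))
  obtain ⟨W, hW⟩ := Plu.exists_sub dx1 m
  refine Submodule.span_mono ?_ (gal_desc (F := M)
    (fun σ c => ⟨_, ((σ.restrictScalars K).restrictNormal_commutes K1 c)⟩) W (fun σ y hy => ?_)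
    ((hW _).2 h) (bc_span0 K hgen ▸ trivial))
  · rintro _ ⟨hy, a, rfl⟩
    refine ⟨a, (plu_iff hx.isFr).2 (PluD.descend (S := range (algebraMap K1 M1)) ?_ hgen hl
      ((h1 _ _).2 ((plu_iff hx1.isFr).1 ((hW _).1 hy)))), rfl⟩
    rintro _ ⟨a, rfl⟩
    exact (Algebra.IsAlgebraic.isAlgebraic a).algebraMap
  · exact (hW _).2 ((plu_iff hx1.isFr).2 ((h1 _ _).1 (((h1 _ _).2 ((plu_iff hx1.isFr).1
      ((hW _).1 hy))).map_equiv (σ.restrictScalars K) (hs σ))))

/-- regular forms after an extension of the ground field -/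
theorem bc_plu0 (hx : Dual K x dx) (hx1 : Dual K1 (algebraMap M M1 ∘ x) dx1) {m : ℕ}
    {ι : Type} {t : ι → M} (ht : ∀ φ, Plu dx m φ ↔ φ ∈ Submodule.span K (range t)) (φ : M1) :
    Plu dx1 m φ ↔ φ ∈ Submodule.span K1 (range (algebraMap M M1 ∘ t)) := by
  have : CharZero K1 := charZero_of_injective_algebraMap (algebraMap K K1).injective
  obtain ⟨W, hW⟩ := Plu.exists_sub dx1 m
  refine ⟨fun h => ?_, fun h => (hW φ).1 (Submodule.span_le.2 ?_ h)⟩
  swap
  · rintro _ ⟨i, rfl⟩
    exact (hW _).2 (bc_plu_up hgen hx hx1 ((ht _).2 (Submodule.subset_span ⟨i, rfl⟩)))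
  let Om := AlgebraicClosure M1
  let K2 := algebraicClosure K Om
  let N := adjoin M1 (K2 : Set Om)
  let _ : Algebra K2 N := (K2.val.toRingHom.codRestrict N.toSubfield
    fun a => subset_adjoin _ _ a.2).toAlgebra
  let _ : Algebra K1 K2 := ((algebraMap K1 Om).codRestrict K2.toSubfield fun a =>
    mem_algebraicClosure_iff.2 (Algebra.IsAlgebraic.isAlgebraic a).algebraMap).toAlgebra
  have : IsScalarTower K K2 N := .of_algebraMap_eq fun _ => rfl
  have : IsScalarTower K M N :=
    .of_algebraMap_eq fun a => Subtype.ext (IsScalarTower.algebraMap_apply K M Om a)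
  have : IsScalarTower K1 K2 N := .of_algebraMap_eq fun _ => rfl
  have : IsScalarTower K K1 K2 :=
    .of_algebraMap_eq fun a => Subtype.ext (IsScalarTower.algebraMap_apply K K1 Om a)
  have : Algebra.IsAlgebraic K1 K2 := .tower_top (K := K) K1
  have g1 : adjoin M1 (range (algebraMap K2 N)) = ⊤ := by
    refine eq_top_iff.2 ?_
    rintro ⟨y, hy⟩ -
    induction hy using adjoin_induction with
    | mem y hy => exact subset_adjoin _ _ ⟨⟨y, hy⟩, rfl⟩
    | algebraMap y => exact IntermediateField.algebraMap_mem _ y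
    | add y z _ _ h1 h2 => exact add_mem h1 h2
    | inv y _ h => exact inv_mem h
    | mul y z _ _ h1 h2 => exact mul_mem h1 h2
  have g2 : adjoin M (range (algebraMap K2 N)) = ⊤ := by
    have h1 : ∀ y : M1, algebraMap M1 N y ∈ adjoin M (range (algebraMap K2 N)) := fun y => by
      have hy : y ∈ adjoin M (range (algebraMap K1 M1)) := hgen ▸ trivial
      refine (adjoin_le_iff (T := comap (IsScalarTower.toAlgHom M M1 N)
        (adjoin M (range (algebraMap K2 N))))).2 ?_ hy
      rintro _ ⟨a, rfl⟩
      exact subset_adjoin _ _ ⟨algebraMap K1 K2 a, rfl⟩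
    refine eq_top_iff.2 fun y _ => ?_
    have hy : y ∈ adjoin M1 (range (algebraMap K2 N)) := g1 ▸ trivial
    exact (Subfield.closure_le (t := (adjoin M (range (algebraMap K2 N))).toSubfield)).2
      (union_subset (range_subset_iff.2 h1) (subset_adjoin _ _)) hy
  have : CharZero K2 := charZero_of_injective_algebraMap (algebraMap K K2).injective
  obtain ⟨dx2, hx2⟩ := Dual.exists (bc_basis0 g2 hx.basis)
  have h2 := bc_plu_normal g2 hx hx2 (bc_plu_up g1 hx1 hx2 h)
  obtain ⟨l, l1, l2⟩ := bc_proj g1 (bc_ac0 hgen hc)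
  have l3 : ∀ y : M1, l (algebraMap M1 N y) = y := fun y => by
    rw [Algebra.algebraMap_eq_smul_one, map_smul, l1, smul_eq_mul, mul_one]
  rw [← l3 φ, ← one_smul K2 (algebraMap M1 N φ)]
  generalize (1 : K2) = a
  generalize algebraMap M1 N φ = y at h2
  induction h2 using Submodule.span_induction generalizing a with
  | mem y hy =>
    obtain ⟨b, hb, rfl⟩ := hy
    obtain ⟨c, hc⟩ := l2 a
    rw [Algebra.smul_def, mul_comm, IsScalarTower.algebraMap_apply M M1 N, ← Algebra.smul_def,
      map_smul, ← hc, smul_eq_mul, mul_comm, ← Algebra.smul_def, range_comp]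
    exact Submodule.smul_mem _ _ (Submodule.span_subset_span K K1 _
      (Submodule.apply_mem_span_image_of_mem_span (IsScalarTower.toAlgHom K M M1).toLinearMap
        ((ht b).1 hb)))
  | zero => simp
  | add y z _ _ h1 h2 => rw [smul_add, map_add]; exact add_mem (h1 a) (h2 a)
  | smul b y _ h => rw [smul_smul]; exact h _

end main

section out

variable {K M K1 M1 ι : Type} [Field K] [CharZero K] [Field M] [Field K1] [Field M1] [Algebra K M]
  [Algebra K K1] [Algebra K1 M1] [Algebra M M1] [Algebra K M1] [IsScalarTower K M M1]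
  [IsScalarTower K K1 M1] [Algebra.IsAlgebraic K K1] [Fintype ι] [DecidableEq ι]

theorem bc_li (hc : ∀ x : M, IsAlgebraic K x → x ∈ range (algebraMap K M)) {κ : Type} {a : κ → M}
    (h : LinearIndependent K a) : LinearIndependent K1 fun i => algebraMap M M1 (a i) :=
  bc_li0 K1 M1 hc h

include K in
theorem bc_span (hg : IntermediateField.adjoin M (range (algebraMap K1 M1)) = ⊤) (φ : M1) :
    φ ∈ Submodule.span K1 (range (algebraMap M M1)) := bc_span0 K hg ▸ trivial

theorem bc_ac (hc : ∀ x : M, IsAlgebraic K x → x ∈ range (algebraMap K M))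
    (hg : IntermediateField.adjoin M (range (algebraMap K1 M1)) = ⊤) (x : M1)
    (hx : IsAlgebraic K1 x) : x ∈ range (algebraMap K1 M1) := bc_ac0 hg hc x hx

theorem bc_basis (hg : IntermediateField.adjoin M (range (algebraMap K1 M1)) = ⊤) {x : ι → M}
    (hx : IsTranscendenceBasis K x) :
    IsTranscendenceBasis K1 fun i => algebraMap M M1 (x i) := bc_basis0 hg hx

theorem bc_smooth (hc : ∀ x : M, IsAlgebraic K x → x ∈ range (algebraMap K M))
    (hg : IntermediateField.adjoin M (range (algebraMap K1 M1)) = ⊤) (h : SmoothModel K M) :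
    SmoothModel K1 M1 := h.bc hg hc

theorem bc_plu (hc : ∀ x : M, IsAlgebraic K x → x ∈ range (algebraMap K M))
    (hg : IntermediateField.adjoin M (range (algebraMap K1 M1)) = ⊤) {x : ι → M}
    {d : ι → Derivation K M M} {d1 : ι → Derivation K1 M1 M1} (hd : Dual K x d)
    (hd1 : Dual K1 (fun i => algebraMap M M1 (x i)) d1) (m : ℕ) (φ : M1) :
    Plu d1 m φ ↔ φ ∈ Submodule.span K1 (algebraMap M M1 '' {ψ | Plu d m ψ}) := by
  obtain ⟨W, hW⟩ := Plu.exists_sub d m
  have e : range (fun a : W => (a : M)) = (W : Set M) := Subtype.range_coe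
  rw [bc_plu0 hg hc hd hd1 (t := fun a : W => (a : M)) fun ψ => by
    rw [e, Submodule.span_eq, hW], range_comp, e]
  exact Iff.of_eq (congrArg (fun S => φ ∈ Submodule.span K1 (algebraMap M M1 '' S)) (Set.ext hW))

end out

end Pool.Agent.Lib.MP_5c318e_ag
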