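import Pool.Agent.Lib.MP_5c318e_ag.Va.IDefs
import Pool.Agent.Lib.MP_5c318e_ag.S.CCov
import Pool.Agent.Lib.MP_5c318e_ag.Cv.Curve

/-! Generic points of finite coverings; finite extensions of the base of a family. -/

set_option autoImplicit false

namespace Pool.Agent.Lib.MP_5c318e_ag

open Set Polynomial

/-- a finite covering that dominates the base has a geometric generic point -/
theorem exists_gen_pt {R Om σ : Type} [CommRing R] [IsDomain R] [Field Om] [IsAlgClosed Om]
    [Algebra R Om] (hi : Function.Injective (algebraMap R Om)) {I : Ideal (MvPolynomial σ R)}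
    (h0 : ∀ a : R, MvPolynomial.C a ∈ I → a = 0)
    (h1 : ∀ i, ∃ P : R[X], P.Monic ∧ P.eval₂ MvPolynomial.C (MvPolynomial.X i) ∈ I) :
    ∃ x : σ → Om, (∀ i, IsIntegral R (x i)) ∧ ∀ P ∈ I, MvPolynomial.aeval x P = 0 := by
  obtain ⟨Q, hQ, hp, hc⟩ := Ideal.exists_ideal_comap_le_prime (⊥ : Ideal R) I
    fun a ha => h0 a ha
  have hX : ∀ i, IsIntegral R (Ideal.Quotient.mkₐ R Q (MvPolynomial.X i)) := fun i => by
    obtain ⟨P, hP, h⟩ := h1 i
    refine ⟨P, hP, ?_⟩
    rw [← aeval_def, aeval_algHom_apply]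
    exact Ideal.Quotient.eq_zero_iff_mem.2 (hQ h)
  have : Algebra.IsIntegral R (MvPolynomial σ R ⧸ Q) := ⟨fun y => by
    obtain ⟨y, rfl⟩ := Ideal.Quotient.mkₐ_surjective R Q y
    induction y using MvPolynomial.induction_on with
    | C a => exact isIntegral_algebraMap (x := a)
    | add p q hp hq => rw [map_add]; exact hp.add hq
    | mul_X p i hp => rw [map_mul]; exact hp.mul (hX i)⟩
  have : FaithfulSMul R Om := (faithfulSMul_iff_algebraMap_injective R Om).2 hi
  have : FaithfulSMul R (MvPolynomial σ R ⧸ Q) :=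
    (faithfulSMul_iff_algebraMap_injective R _).2 ((injective_iff_map_eq_zero _).2 fun a ha =>
      hc ((Ideal.Quotient.eq_zero_iff_mem (I := Q) (a := MvPolynomial.C a)).1 ha))
  let θ := (IsAlgClosed.lift : (MvPolynomial σ R ⧸ Q) →ₐ[R] Om)
  refine ⟨fun i => θ (Ideal.Quotient.mkₐ R Q (MvPolynomial.X i)), fun i => (hX i).map θ,
    fun P hP => ?_⟩
  have e := MvPolynomial.aeval_unique (θ.comp (Ideal.Quotient.mkₐ R Q))
  have : θ (Ideal.Quotient.mkₐ R Q P) = 0 := by
    rw [Ideal.Quotient.mkₐ_eq_mk, Ideal.Quotient.eq_zero_iff_mem.2 (hQ hP), map_zero]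
  exact (DFunLike.congr_fun e P).symm.trans this

/-- isotriviality may be checked after a finite extension of the base -/
theorem isotriv_of_ext {K M σ : Type} [Field K] [Field M] [Algebra ℂ K] [Algebra ℂ M] [Algebra K M]
    [IsScalarTower ℂ K M] [Finite σ] (Q : (F : Type) → [Field F] → [Algebra K F] → (σ → F) → Prop)
    (hQ : ∀ (F F' : Type) [Field F] [Field F'] [Algebra K F] [Algebra K F'] (φ : F →ₐ[K] F')
      (x : σ → F), Q F' (φ ∘ x) → Q F x)
    (ex : ∀ (Om : Type) [Field Om] [IsAlgClosed Om] [Algebra K Om],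
      ∃ x : σ → Om, (∀ i, IsIntegral K (x i)) ∧ Q Om x)
    (H : ∀ (K1 M1 : Type) [Field K1] [Algebra ℂ K1] [Field M1] [Algebra ℂ M1] [Algebra K1 M1]
      [IsScalarTower ℂ K1 M1] [Algebra K K1] [Algebra M M1] [Algebra K M1] [IsScalarTower K M M1]
      [IsScalarTower K K1 M1] [IsScalarTower ℂ K K1] [IsScalarTower ℂ M M1]
      [FiniteDimensional K K1], IntermediateField.adjoin M (range (algebraMap K1 M1)) = ⊤ →
      ∀ x : σ → K1, Q K1 x → Isotriv K1 M1) : Isotriv K M := fun Om _ _ ψ => by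
  let _ : Algebra M Om := ψ.toAlgebra
  let _ : Algebra K Om := (ψ.comp (algebraMap K M)).toAlgebra
  let _ : Algebra ℂ Om := (ψ.comp (algebraMap ℂ M)).toAlgebra
  have : IsScalarTower K M Om := .of_algebraMap_eq fun _ => rfl
  have : IsScalarTower ℂ M Om := .of_algebraMap_eq fun _ => rfl
  have : IsScalarTower ℂ K Om := .of_algebraMap_eq fun c =>
    congrArg ψ (IsScalarTower.algebraMap_apply ℂ K M c)
  obtain ⟨x, hx, hq⟩ := ex Om
  let K1 := IntermediateField.adjoin K (range x)
  let M1 := IntermediateField.adjoin M (K1 : Set Om)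
  let _ : Algebra K1 M1 := (K1.val.toRingHom.codRestrict M1.toSubfield fun a =>
    IntermediateField.subset_adjoin _ _ a.2).toAlgebra
  have : IsScalarTower ℂ K1 M1 := .of_algebraMap_eq fun _ => rfl
  have : IsScalarTower K K1 M1 := .of_algebraMap_eq fun _ => rfl
  have : FiniteDimensional K K1 := IntermediateField.finiteDimensional_adjoin (forall_mem_range.2 hx)
  have h := H K1 M1 (IntermediateField.lift_injective M1 (by
      rw [IntermediateField.lift_adjoin, IntermediateField.lift_top, ← range_comp]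
      exact congrArg _ Subtype.range_coe))
    (fun i => ⟨x i, IntermediateField.subset_adjoin _ _ ⟨i, rfl⟩⟩) (hQ K1 Om K1.val _ hq) Om
    (algebraMap M1 Om)
  have e : acl (img K1 (algebraMap M1 Om)) = acl (img K ψ) := by
    refine le_antisymm (acl_le ?_) (acl_mono ?_)
    · rintro _ ⟨a, rfl⟩
      refine mem_acl.2 (((Algebra.IsAlgebraic.isAlgebraic (R := K) a).algHom K1.val).ringHom_of_comp_eq
        (ψ.comp (algebraMap K M)).rangeRestrictField (RingHom.id Om) (RingHom.injective _) rfl)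
    · rintro _ ⟨a, rfl⟩
      exact ⟨algebraMap K K1 a, rfl⟩
  have e' : (algebraMap M1 Om).fieldRange ⊔ acl (img K ψ) = ψ.fieldRange ⊔ acl (img K ψ) := by
    refine le_antisymm (sup_le ?_ le_sup_right) (sup_le_sup_right ?_ _)
    · rintro _ ⟨⟨a, ha⟩, rfl⟩
      change a ∈ _
      induction ha using IntermediateField.adjoin_induction with
      | mem a ha => exact (le_sup_right : acl (img K ψ) ≤ _) (e ▸ le_acl _ ⟨⟨a, ha⟩, rfl⟩)
      | algebraMap a => exact (le_sup_left : ψ.fieldRange ≤ _) ⟨a, rfl⟩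
      | add a b _ _ h1 h2 => exact add_mem h1 h2
      | inv a _ h1 => exact inv_mem h1
      | mul a b _ _ h1 h2 => exact mul_mem h1 h2
    · rintro _ ⟨a, rfl⟩
      exact ⟨algebraMap M M1 a, rfl⟩
  rwa [e, e'] at h

end Pool.Agent.Lib.MP_5c318e_ag
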