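import Pool.Agent.Lib.MP_5c318e_ag.Va.VDefs
import Pool.Agent.Lib.MP_5c318e_ag.D.Flat
import Pool.Agent.Lib.MP_5c318e_ag.S.Conn

/-! The parallel frames form an algebraic finite covering of the base. -/

set_option autoImplicit false
set_option linter.unusedSectionVars false

namespace Pool.Agent.Lib.MP_5c318e_ag

open MeasureTheory Set Filter Topology Matrix Polynomial

variable {δ ν K M : Type} [Fintype δ] [DecidableEq δ] [Fintype ν] [DecidableEq ν]
  [Field K] [Algebra ℂ K] [Field M] [Algebra ℂ M] [Algebra K M]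

theorem mv_diff {σ E : Type} [NormedAddCommGroup E] [NormedSpace ℂ E] {f : E → σ → ℂ} {x : E}
    (hf : ∀ i, DifferentiableAt ℂ (fun z => f z i) x) (q : MvPolynomial σ ℂ) :
    DifferentiableAt ℂ (fun z => MvPolynomial.eval (f z) q) x := by
  induction q using MvPolynomial.induction_on with
  | C c => simp
  | add p q hp hq => simpa using hp.fun_add hq
  | mul_X p i hp => simpa using hp.fun_mul (hf i)

/-- a family of monic polynomials with regular values has regular coefficients -/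
theorem Cht.exists_monic (c : Cht δ K) {Pi : Pt c.O → ℂ[X]} {n : ℕ} (hm : ∀ b, (Pi b).Monic)
    (hn : ∀ b, (Pi b).natDegree = n) (h : ∀ x : ℂ, ∃ ψ : c.O, ∀ b, (Pi b).eval x = b ψ) :
    ∃ P : (c.O)[X], P.Monic ∧ ∀ b : Pt c.O, P.map (b.hom : c.O →+* ℂ) = Pi b := by
  classical
  choose ψ hψ using h
  let s := Finset.range (n + 1)
  let v : ℕ → ℂ := fun k => k
  let P : (c.O)[X] := ∑ k ∈ s, C (ψ (v k)) * (Lagrange.basis s v k).map (algebraMap ℂ c.O)
  have hP : ∀ b : Pt c.O, P.map (b.hom : c.O →+* ℂ) = Pi b := fun b => by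
    have e : (b.hom : c.O →+* ℂ).comp (algebraMap ℂ c.O) = RingHom.id ℂ := RingHom.ext b.map_alg
    rw [Lagrange.eq_interpolate (f := Pi b) (s := s) (v := v) Nat.cast_injective.injOn
      (by rw [Finset.card_range, degree_eq_natDegree (hm b).ne_zero, hn]; exact_mod_cast n.lt_succ_self),
      Lagrange.interpolate_apply, Polynomial.map_sum]
    refine Finset.sum_congr rfl fun k _ => ?_
    rw [Polynomial.map_mul, map_C, Polynomial.map_map, e, Polynomial.map_id, hψ]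
    rfl
  have hc : ∀ (b : Pt c.O) k, b (P.coeff k) = (Pi b).coeff k := fun b k => by
    rw [← hP, coeff_map]; rfl
  refine ⟨P, monic_of_natDegree_le_of_coeff_eq_one n (natDegree_le_iff_coeff_eq_zero.2 fun k hk =>
    c.eq_zero fun b => ?_) (sub_eq_zero.1 (c.eq_zero fun b => ?_)), hP⟩
  · rw [hc, coeff_eq_zero_of_natDegree_lt (hn b ▸ hk)]
  · rw [map_sub, hc, ← hn b, (hm b).coeff_natDegree, map_one, sub_self]

namespace Dat

variable (d : Dat δ K ν M) (g : d.B.O) (a1 : ℕ)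

/-- the isometries from the fibre over `b1` to the fibre over `b` -/
def Gi (b1 b : Pt d.B.O) : Set (Matrix (Fin d.r) (Fin d.r) ℂ) :=
  {A | (∀ a, d.Nn b (A *ᵥ a) = d.Nn b1 a) ∧ A.det ^ a1 * b1 g = b g}

variable {d g a1} {b1 b b' : Pt d.B.O} {A T : Matrix (Fin d.r) (Fin d.r) ℂ}

theorem Gi.det_ne (hg : IsUnit g) (ha : 0 < a1) (h : A ∈ d.Gi g a1 b1 b) : A.det ≠ 0 := fun e =>
  (hg.map b).ne_zero (by rw [← h.2, e, zero_pow ha.ne', zero_mul])

theorem Gi.mul (h : A ∈ d.Gi g a1 b1 b) (h' : T ∈ d.Gi g a1 b b') : T * A ∈ d.Gi g a1 b1 b' :=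
  ⟨fun a => by rw [← mulVec_mulVec, h'.1, h.1], by rw [det_mul, mul_pow, mul_assoc, h.2, h'.2]⟩

theorem Gi.inv (h : T ∈ d.Gi g a1 b b') (e : T.det ≠ 0) : T⁻¹ ∈ d.Gi g a1 b' b :=
  ⟨fun a => by rw [← h.1, mulVec_mulVec, mul_nonsing_inv _ e.isUnit, one_mulVec], by
    rw [← h.2, det_nonsing_inv, Ring.inverse_eq_inv', ← mul_assoc, ← mul_pow, inv_mul_cancel₀ e,
      one_pow, one_mul]⟩

theorem Gi.image (h : T ∈ d.Gi g a1 b b') (e : T.det ≠ 0) :
    d.Gi g a1 b1 b' = (fun A => T * A) '' d.Gi g a1 b1 b := by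
  refine Subset.antisymm (fun A hA => ⟨_, Gi.mul hA (Gi.inv h e),
    mul_nonsing_inv_cancel_left _ _ e.isUnit⟩) ?_
  rintro _ ⟨A, hA, rfl⟩
  exact Gi.mul hA h

theorem mul_inj (e : T.det ≠ 0) : Function.Injective fun A : Matrix (Fin d.r) (Fin d.r) ℂ => T * A :=
  fun A B h => by
    simpa only [nonsing_inv_mul_cancel_left _ _ e.isUnit] using congrArg (fun X => T⁻¹ * X) h

theorem ParAll.loc (h : d.ParAll g a1) (b0 : Pt d.B.O) :
    ∃ T : Pt d.B.O → Matrix (Fin d.r) (Fin d.r) ℂ, (∀ᶠ b in 𝓝 b0, T b ∈ d.Gi g a1 b0 b) ∧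
      ∀ i j, DifferentiableAt ℂ (fun z => T (d.B.D.sec b0 z) i j) (d.B.D.π b0) := by
  obtain ⟨U, A, h1, h2, h3, h4⟩ := h.fr b0
  have e := (h3 b0 h2).1
  refine ⟨fun b => A b * (A b0)⁻¹, mem_of_superset (h1.mem_nhds h2) fun b hb => ⟨fun a => ?_, ?_⟩,
    fun i j => ?_⟩
  · rw [← mulVec_mulVec, (h4 b hb b0 h2).1, mulVec_mulVec, mul_nonsing_inv _ e.isUnit, one_mulVec]
  · rw [det_mul, det_nonsing_inv, Ring.inverse_eq_inv', mul_pow, mul_right_comm, (h4 b hb b0 h2).2,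
      mul_right_comm, ← mul_pow, mul_inv_cancel₀ e, one_pow, one_mul]
  · simp only [Matrix.mul_apply]
    exact DifferentiableAt.fun_sum fun k _ => ((h3 b0 h2).2 i k).mul_const _

theorem ParAll.nonempty (hg : IsUnit g) (ha : 0 < a1) (h : d.ParAll g a1) (b1 b : Pt d.B.O) :
    (d.Gi g a1 b1 b).Nonempty := by
  have := d.B.preconnected d.T.finB
  have lc : IsLocallyConstant fun b => (d.Gi g a1 b1 b).Nonempty :=
    (IsLocallyConstant.iff_eventually_eq _).2 fun b0 => by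
      obtain ⟨T, h1, -⟩ := h.loc b0
      exact h1.mono fun b hb => by rw [Gi.image hb (Gi.det_ne hg ha hb), image_nonempty]
  exact (lc.apply_eq_of_preconnectedSpace b1 b).mp
    ⟨1, fun a => by rw [one_mulVec], by simp⟩

theorem Gi.bound (b1 : Pt d.B.O) : ∃ u : Pt d.B.O → ℝ, Md d.B.siz u ∧
    ∀ b, ∀ A ∈ d.Gi g a1 b1 b, ∀ i j, ‖A i j‖ ≤ u b := by
  obtain ⟨v, h1, h2⟩ := d.low
  obtain ⟨L, L0, hL⟩ := h1
  have hp := d.fl_p
  obtain ⟨k, hk⟩ := exists_nat_ge (2 / d.m : ℝ)⁻¹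
  have s0 := d.B.siz_nonneg
  let c : ℝ := ∑ j, d.Nn b1 (Pi.single j 1)
  have n0 : ∀ b a, 0 ≤ d.Nn b a := fun _ _ => ENNReal.toReal_nonneg
  have c0 : 0 ≤ c := Finset.sum_nonneg fun _ _ => n0 _ _
  refine ⟨fun b => (1 + c * Real.exp (L * d.B.siz b + L)) ^ k, Md.pow s0 (Md.add s0 (Md.const s0 1)
    ((Md.const s0 c).mul ⟨L, L0, fun _ => le_rfl⟩ fun _ => (Real.exp_pos _).le))
    (fun _ => by positivity) k, fun b A hA i j => ?_⟩
  have h3 := ENNReal.toReal_mono (ENNReal.mul_ne_top ENNReal.ofReal_ne_top (d.fl_ne_top b _))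
    ((h2 b (A *ᵥ Pi.single j 1)).trans (mul_le_mul_left (ENNReal.ofReal_le_ofReal (hL b)) _))
  rw [← ENNReal.toReal_rpow, toReal_enorm, ENNReal.toReal_mul,
    ENNReal.toReal_ofReal (Real.exp_pos _).le] at h3
  have h4 : d.Nn b (A *ᵥ Pi.single j 1) ≤ c := (hA.1 _).trans_le
    (Finset.single_le_sum (f := fun j => d.Nn b1 (Pi.single j 1)) (fun _ _ => n0 _ _)
      (Finset.mem_univ j))
  refine le_trans ?_ (Fl.le_of_rpow_le hp hk (norm_nonneg (A *ᵥ Pi.single j 1))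
    (le_add_of_nonneg_right (by positivity)) (h3.trans ?_))
  · simpa using norm_le_pi_norm (A *ᵥ Pi.single j 1) i
  · rw [mul_comm c]
    exact (mul_le_mul_of_nonneg_left h4 (Real.exp_pos _).le).trans (le_add_of_nonneg_left zero_le_one)

/-- the characteristic polynomial of a polynomial function on the covering -/
theorem ParAll.poly (hg : IsUnit g) (ha : 0 < a1) (h : d.ParAll g a1) (b1 : Pt d.B.O)
    (q : MvPolynomial (Fin d.r × Fin d.r) ℂ) : ∃ P : (d.B.O)[X], P.Monic ∧ ∀ (b : Pt d.B.O) (x : ℂ),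
      (P.map (b.hom : d.B.O →+* ℂ)).eval x = 0 ↔
        ∃ A ∈ d.Gi g a1 b1 b, x = MvPolynomial.eval (fun i => A i.1 i.2) q := by
  classical
  have f1 : (d.Gi g a1 b1 b1).Finite := (h.iso b1 a1 ha.ne').subset fun A hA =>
    ⟨hA.1, mul_right_cancel₀ (hg.map b1).ne_zero (by rw [hA.2, one_mul])⟩
  have fin : ∀ b, (d.Gi g a1 b1 b).Finite := fun b => by
    obtain ⟨T, hT⟩ := h.nonempty hg ha b1 b
    rw [Gi.image hT (Gi.det_ne hg ha hT)]
    exact f1.image _
  let F := fun b => (fin b).toFinset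
  have hF : ∀ {b b' T}, T ∈ d.Gi g a1 b b' → F b' = (F b).image fun A => T * A := fun hT => by
    rw [← Finset.coe_inj, Finset.coe_image, Finite.coe_toFinset, Finite.coe_toFinset,
      Gi.image hT (Gi.det_ne hg ha hT)]
  have card : ∀ b, (F b).card = (F b1).card := fun b => by
    obtain ⟨T, hT⟩ := h.nonempty hg ha b1 b
    rw [hF hT, Finset.card_image_of_injective _ (mul_inj (Gi.det_ne hg ha hT))]
  let l : Matrix (Fin d.r) (Fin d.r) ℂ → ℂ := fun A => MvPolynomial.eval (fun i => A i.1 i.2) q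
  obtain ⟨P, h1, h2⟩ := d.B.exists_monic (Pi := fun b => ∏ A ∈ F b, (X - C (l A)))
    (n := (F b1).card) (fun b => monic_prod_of_monic _ _ fun _ _ => monic_X_sub_C _)
    (fun b => by rw [natDegree_finsetProd_X_sub_C_eq_card, card]) fun x => by
      simp only [eval_prod, eval_sub, eval_X, eval_C]
      refine d.B.rat_md d.T.finB (fun b0 => ?_) ?_
      · obtain ⟨T, k1, k2⟩ := h.loc b0
        refine DifferentiableAt.congr_of_eventuallyEq
          (f := fun z => ∏ A ∈ F b0, (x - l (T (d.B.D.sec b0 z) * A))) ?_ ?_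
        · refine (HasFDerivAt.finsetProd fun A _ =>
            ((mv_diff (fun i => ?_) q).const_sub x).hasFDerivAt).differentiableAt
          simp only [Matrix.mul_apply]
          exact DifferentiableAt.fun_sum fun k _ => (k2 _ k).mul_const _
        · filter_upwards [(d.B.D.tendsto_sec b0).eventually k1] with z hz
          rw [hF hz, Finset.prod_image (mul_inj (Gi.det_ne hg ha hz)).injOn]
      · obtain ⟨u, ⟨L, L0, hL⟩, k2⟩ := Gi.bound (g := g) (a1 := a1) b1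
        obtain ⟨c, N, c0, k3⟩ := pl_mv q
        have s0 := d.B.siz_nonneg
        refine (Md.pow s0 (Md.add s0 (Md.const s0 ‖x‖) ((Md.const s0 c).mul
          (Md.pow s0 ⟨L, L0, fun _ => le_rfl⟩ (fun _ => (Real.exp_pos _).le) N)
          fun _ => by positivity)) (fun _ => by positivity) (F b1).card).mono fun b => ?_
        rw [norm_prod, ← card b, ← Finset.prod_const]
        refine Finset.prod_le_prod (fun _ _ => norm_nonneg _) fun A hA =>
          (norm_sub_le _ _).trans (add_le_add_right ?_ _)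
        have k4 : ‖fun i : Fin d.r × Fin d.r => A i.1 i.2‖ ≤ Real.exp (L * d.B.siz b + L) :=
          (pi_norm_le_iff_of_nonneg (Real.exp_pos _).le).2 fun i =>
            (k2 b A ((fin b).mem_toFinset.1 hA) _ _).trans (hL b)
        exact (k3 _ (Real.one_le_exp (by have := s0 b; positivity)) _ _ k4 k4).1
  refine ⟨P, h1, fun b x => ?_⟩
  simp only [h2, eval_prod, eval_sub, eval_X, eval_C, Finset.prod_eq_zero_iff, sub_eq_zero]
  exact exists_congr fun A => and_congr_left' (fin b).mem_toFinset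

end Dat

theorem eval₂_char {σ R : Type} [CommRing R] [Algebra ℂ R] (b : Pt R) (a : σ → ℂ) (P : R[X])
    (q : MvPolynomial σ ℂ) :
    MvPolynomial.eval₂ (b.hom : R →+* ℂ) a
      (P.eval₂ MvPolynomial.C (MvPolynomial.map (algebraMap ℂ R) q)) =
      (P.map (b.hom : R →+* ℂ)).eval (MvPolynomial.eval a q) := by
  have e : (b.hom : R →+* ℂ).comp (algebraMap ℂ R) = RingHom.id ℂ := RingHom.ext b.map_alg
  rw [← MvPolynomial.coe_eval₂Hom, hom_eval₂, MvPolynomial.eval₂Hom_comp_C, eval_map,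
    MvPolynomial.eval₂Hom_map_hom, e]
  rfl

theorem Dat.ParAll.alg {d : Dat δ K ν M} {g : d.B.O} (hg : IsUnit g) {a1 : ℕ} (ha : 0 < a1)
    (h : d.ParAll g a1) : ∃ (b1 : Pt d.B.O) (I : Ideal (MvPolynomial (Fin d.r × Fin d.r) d.B.O)),
      (∀ a : d.B.O, MvPolynomial.C a ∈ I → a = 0) ∧
      (∀ i, ∃ P : (d.B.O)[X], P.Monic ∧ P.eval₂ MvPolynomial.C (MvPolynomial.X i) ∈ I) ∧
      ∀ (b : Pt d.B.O) (A : Matrix (Fin d.r) (Fin d.r) ℂ),
        (∀ P ∈ I, MvPolynomial.eval₂ (b.hom : d.B.O →+* ℂ) (fun i => A i.1 i.2) P = 0) →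
        A.det ≠ 0 ∧ ∀ a, d.Nn b (A *ᵥ a) = d.Nn b1 a := by
  classical
  obtain ⟨b1⟩ := d.B.nonempty
  let I : Ideal (MvPolynomial (Fin d.r × Fin d.r) d.B.O) := ⨅ (b : Pt d.B.O),
    ⨅ A ∈ d.Gi g a1 b1 b, RingHom.ker (MvPolynomial.eval₂Hom (b.hom : d.B.O →+* ℂ) fun i => A i.1 i.2)
  have hI : ∀ P, P ∈ I ↔ ∀ b : Pt d.B.O, ∀ A ∈ d.Gi g a1 b1 b,
      MvPolynomial.eval₂ (b.hom : d.B.O →+* ℂ) (fun i => A i.1 i.2) P = 0 := fun P => by
    simp only [I, Submodule.mem_iInf, RingHom.mem_ker, MvPolynomial.coe_eval₂Hom]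
  have key : ∀ q : MvPolynomial (Fin d.r × Fin d.r) ℂ, ∃ P : (d.B.O)[X], P.Monic ∧
      P.eval₂ MvPolynomial.C (MvPolynomial.map (algebraMap ℂ d.B.O) q) ∈ I ∧
      ∀ (b : Pt d.B.O) (x : ℂ), (P.map (b.hom : d.B.O →+* ℂ)).eval x = 0 →
        ∃ A ∈ d.Gi g a1 b1 b, x = MvPolynomial.eval (fun i => A i.1 i.2) q := fun q => by
    obtain ⟨P, h1, h2⟩ := h.poly hg ha b1 q
    exact ⟨P, h1, (hI _).2 fun b A hA => (eval₂_char ..).trans ((h2 b _).2 ⟨A, hA, rfl⟩),
      fun b x => (h2 b x).1⟩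
  refine ⟨b1, I, fun a hc => d.B.eq_zero fun b => ?_, fun i => ?_, fun b A hA => ?_⟩
  · obtain ⟨A, hA⟩ := h.nonempty hg ha b1 b
    simpa using (hI _).1 hc b A hA
  · obtain ⟨P, h1, h2, -⟩ := key (MvPolynomial.X i)
    exact ⟨P, h1, by rwa [MvPolynomial.map_X] at h2⟩
  suffices H : A ∈ d.Gi g a1 b1 b from ⟨Dat.Gi.det_ne hg ha H, H.1⟩
  by_contra hn
  obtain ⟨T, hT⟩ := h.nonempty hg ha b1 b
  have fin : (d.Gi g a1 b1 b).Finite := by
    rw [Dat.Gi.image hT (Dat.Gi.det_ne hg ha hT)]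
    exact ((h.iso b1 a1 ha.ne').subset fun A hA =>
      ⟨hA.1, mul_right_cancel₀ (hg.map b1).ne_zero (by rw [hA.2, one_mul])⟩).image _
  have hi : ∀ B : fin.toFinset, ∃ i : Fin d.r × Fin d.r, A i.1 i.2 ≠ B.1 i.1 i.2 := fun B => by
    by_contra! e
    exact hn ((Matrix.ext fun i j => e (i, j) : A = B.1) ▸ fin.mem_toFinset.1 B.2)
  choose i hi using hi
  obtain ⟨P, -, h2, h3⟩ := key (∏ B, (MvPolynomial.X (i B) - MvPolynomial.C (B.1 (i B).1 (i B).2)))
  obtain ⟨B, hB, e⟩ := h3 b _ ((eval₂_char ..).symm.trans (hA _ h2))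
  simp only [map_prod, map_sub, MvPolynomial.eval_X, MvPolynomial.eval_C] at e
  rw [Finset.prod_eq_zero (f := fun B' : fin.toFinset => B (i B').1 (i B').2 - B'.1 (i B').1 (i B').2)
    (Finset.mem_univ ⟨B, fin.mem_toFinset.2 hB⟩) (sub_self _)] at e
  exact Finset.prod_ne_zero_iff.2 (fun B' _ => sub_ne_zero.2 (hi B')) e

end Pool.Agent.Lib.MP_5c318e_ag
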