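import Pool.Agent.Lib.MP_5c318e_ag.Va.PullD
import Pool.Agent.Lib.MP_5c318e_ag.Va.Frame
import Pool.Agent.Lib.MP_5c318e_ag.Va.Ext

/-! A family over a curve with parallel frames is isotrivial. -/

set_option autoImplicit false

namespace Pool.Agent.Lib.MP_5c318e_ag

open Set Polynomial Matrix

variable {ν K M : Type} [Fintype ν] [DecidableEq ν]
  [Field K] [Algebra ℂ K] [Field M] [Algebra ℂ M] [Algebra K M] [IsScalarTower ℂ K M]

theorem Dat.ParAll.isotriv (H : CurveIso ν) {d : Dat Unit K ν M} {g : d.B.O} (hg : IsUnit g) {a1 : ℕ}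
    (ha : 0 < a1) (h : d.ParAll g a1) : Isotriv K M := by
  obtain ⟨b1, I, h0, h1, h2⟩ := h.alg hg ha
  refine isotriv_of_ext (σ := Option (Fin d.r × Fin d.r)) (fun F _ _ x =>
    x none ^ 2 = algebraMap K F (d.B.z ()) ^ 3 - algebraMap K F (d.B.z ()) ∧
      ∀ P ∈ I, MvPolynomial.aeval (fun i => x (some i)) P = 0)
    (fun F F' _ _ _ _ φ x hx => ⟨φ.injective ?_, fun P hP => φ.injective ?_⟩) (fun Om _ _ _ => ?_)
    fun K1 M1 _ _ _ _ _ _ _ _ _ _ _ _ _ _ hM x ⟨hy, hx⟩ => ?_
  · simpa using hx.1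
  · rw [map_zero, ← hx.2 P hP]
    exact DFunLike.congr_fun (MvPolynomial.comp_aeval _ (φ.restrictScalars d.B.O)) P
  · obtain ⟨x, hx, hI⟩ := exists_gen_pt (Om := Om)
      (fun _ _ e => Subtype.ext ((algebraMap K Om).injective e)) h0 h1
    obtain ⟨y, hy⟩ := IsAlgClosed.exists_pow_nat_eq
      (algebraMap K Om (d.B.z ()) ^ 3 - algebraMap K Om (d.B.z ())) two_pos
    refine ⟨fun o => o.elim y x, fun o => ?_, hy, hI⟩
    rcases o with _ | i
    · exact IsIntegral.of_pow two_pos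
        (hy ▸ (isIntegral_algebraMap.pow 3).sub isIntegral_algebraMap)
    · exact (hx i).tower_top
  have hb : IsTranscendenceBasis ℂ (algebraMap K K1 ∘ fun i => (d.B.z i : K)) :=
    d.B.basis.algebraMap_comp
  have := IntermediateField.fg_top_iff.1 d.B.fg
  have hK := smooth_curve (IntermediateField.fg_top_iff.2 (.comp ℂ K K1)) hb
  obtain ⟨D, hD⟩ := der_dual_exists hb.1
  have hd : Dual ℂ _ D := ⟨hb, fun i j => hD i j⟩
  obtain ⟨e0, e1⟩ := plu_ell hd hy
  let A : Matrix (Fin d.r) (Fin d.r) K1 := Matrix.of fun i j => x (some (i, j))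
  have hA : A.det ≠ 0 := fun hA => by
    have : Algebra.FiniteType ℂ (MvPolynomial (Fin d.r × Fin d.r) d.B.O) :=
      .trans (S := d.B.O) inferInstance inferInstance
    let θ : MvPolynomial (Fin d.r × Fin d.r) d.B.O →ₐ[d.B.O] K1 :=
      MvPolynomial.aeval fun i => x (some i)
    obtain ⟨q, hq, -⟩ := Pt.exists_zero_ne (I := RingHom.ker θ) (h := 1) (by
      rw [(RingHom.ker_isPrime θ).radical]; simp)
    have e : MvPolynomial.eval₂Hom ((q.res (IsScalarTower.toAlgHom ℂ d.B.O _)).hom : d.B.O →+* ℂ)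
        (fun i => q (MvPolynomial.X i)) = (q.hom : MvPolynomial _ d.B.O →+* ℂ) :=
      MvPolynomial.ringHom_ext (fun r => MvPolynomial.eval₂Hom_C _ _ r)
        fun i => MvPolynomial.eval₂Hom_X' _ _ i
    refine (h2 (q.res (IsScalarTower.toAlgHom ℂ d.B.O _)) (Matrix.of fun i j =>
      q (MvPolynomial.X (i, j))) fun P hP => (DFunLike.congr_fun e P).trans
        (hq P (hx P hP))).1 ?_
    have := hq (Matrix.of fun i j => MvPolynomial.X (i, j)).det (by
      rw [RingHom.mem_ker, AlgHom.map_det, ← hA]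
      congr 1
      ext i j
      simp [θ, A])
    rwa [show q (Matrix.det _) = q.hom (Matrix.det _) from rfl, AlgHom.map_det] at this
  obtain ⟨d1, β, A1, e, hβ, hA1, hN⟩ := d.pull hM hK hd one_pos e0 e1
    ((IsScalarTower.toAlgHom ℂ K K1).comp d.B.O.val) ((IsScalarTower.toAlgHom ℂ M M1).comp d.T.X.O.val)
    (fun a => by
      change algebraMap M M1 (d.T.inc a) = algebraMap K1 M1 (algebraMap K K1 a)
      rw [d.T.inc_eq, ← IsScalarTower.algebraMap_apply, ← IsScalarTower.algebraMap_apply])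
    (fun _ => rfl) rfl (fun _ => rfl) A hA
  have key : ∀ (b : Pt d1.B.O) a, d.Nn (b.res β) (A1.map b *ᵥ a) = d.Nn b1 a := fun b =>
    (h2 _ _ fun P hP => by
      have e1 : MvPolynomial.eval₂ (β : d.B.O →+* d1.B.O) (fun i => A1 i.1 i.2) P = 0 :=
        Subtype.ext (((MvPolynomial.eval₂_comp_left d1.B.O.val.toRingHom _ _ P).trans (by
          rw [MvPolynomial.aeval_def]
          congr 1
          · exact RingHom.ext hβ
          · exact funext fun i => hA1 i.1 i.2)).trans (hx P hP))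
      have := MvPolynomial.eval₂_comp_left (b.hom : d1.B.O →+* ℂ) (β : d.B.O →+* d1.B.O)
        (fun i => A1 i.1 i.2) P
      rw [e1, map_zero] at this
      exact this.symm).2
  exact H K1 M1 d1 fun b b' a => by rw [hN, hN, key, key]

end Pool.Agent.Lib.MP_5c318e_ag
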