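import Pool.Agent.Lib.MP_5c318e_ag.S.Conn
import Pool.Agent.Lib.MP_5c318e_ag.S.CRel

/-! The polynomial of a finite chart is minimal; charts from given equations. -/

set_option autoImplicit false

namespace Pool.Agent.Lib.MP_5c318e_ag

open Set Polynomial

theorem Fini.ker {R O ν : Type} [CommRing R] [IsDomain R] [Algebra ℂ R] [Algebra.FiniteType ℂ R]
    [CommRing O] [Algebra ℂ O] [Finite ν] {inc : R →ₐ[ℂ] O} {x : ν → O} (Φ : Fini inc x)
    {P : (MvPolynomial ν R)[X]} (h : P.eval₂ (MvPolynomial.eval₂Hom (inc : R →+* O) x) Φ.w = 0) :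
    Φ.f ∣ P := by
  classical
  rw [← modByMonic_eq_zero_iff_dvd Φ.monic]
  by_contra h0
  have h1 : (P %ₘ Φ.f).eval₂ (MvPolynomial.eval₂Hom (inc : R →+* O) x) Φ.w = 0 := by
    have := congrArg (eval₂ (MvPolynomial.eval₂Hom (inc : R →+* O) x) Φ.w)
      (modByMonic_add_div P Φ.f)
    rwa [eval₂_add, eval₂_mul, Φ.root, zero_mul, add_zero, h] at this
  have h2 := natDegree_lt_natDegree h0 (degree_modByMonic_lt P Φ.monic)
  have : Algebra.FiniteType ℂ (MvPolynomial ν R) := .trans (S := R) inferInstance inferInstance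
  obtain ⟨q, hq⟩ := Pt.exists_ne_zero (mul_ne_zero (leadingCoeff_ne_zero.2 h0) Φ.ne)
  let b : Pt R := q.res (IsScalarTower.toAlgHom ℂ R (MvPolynomial ν R))
  have e : MvPolynomial.eval₂Hom (b.hom : R →+* ℂ) (fun i => q (MvPolynomial.X i)) =
      (q.hom : MvPolynomial ν R →+* ℂ) :=
    MvPolynomial.ringHom_ext (fun r => MvPolynomial.eval₂Hom_C _ _ r)
      fun i => MvPolynomial.eval₂Hom_X' _ _ i
  rw [map_mul] at hq
  have hΔ : (q.hom : MvPolynomial ν R →+* ℂ) Φ.Δ ≠ 0 := right_ne_zero_of_mul hq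
  have hs : (Φ.f.map (q.hom : MvPolynomial ν R →+* ℂ)).Separable := by
    obtain ⟨A, B, j, e⟩ := Φ.cert
    have := congrArg (Polynomial.map (q.hom : MvPolynomial ν R →+* ℂ)) e
    rw [Polynomial.map_add, Polynomial.map_mul, Polynomial.map_mul, map_C, map_pow,
      ← derivative_map] at this
    refine ⟨C ((q.hom : MvPolynomial ν R →+* ℂ) Φ.Δ ^ j)⁻¹ * A.map q.hom,
      C ((q.hom : MvPolynomial ν R →+* ℂ) Φ.Δ ^ j)⁻¹ * B.map q.hom, ?_⟩
    rw [mul_assoc, mul_assoc, ← mul_add, mul_comm (A.map _), mul_comm (B.map _), this, ← C_mul,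
      inv_mul_cancel₀ (pow_ne_zero _ hΔ), C_1]
  have h3 : (P %ₘ Φ.f).map (q.hom : MvPolynomial ν R →+* ℂ) = 0 := by
    refine eq_zero_of_natDegree_lt_card_of_eval_eq_zero' _
      (Φ.f.map (q.hom : MvPolynomial ν R →+* ℂ)).roots.toFinset (fun s hs => ?_) ?_
    · have h4 := isRoot_of_mem_roots (Multiset.mem_toFinset.1 hs)
      rw [IsRoot.def, eval_map, ← e] at h4
      obtain ⟨p, p1, p2, p3⟩ := Φ.ex b _ s (by rw [← e] at hΔ; exact hΔ) h4
      have h5 := hom_eval₂ (P %ₘ Φ.f) (MvPolynomial.eval₂Hom (inc : R →+* O) x)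
        (p.hom : O →+* ℂ) Φ.w
      rw [h1, map_zero, p.ccov_hom, p1, funext p2, e] at h5
      rw [eval_map, ← p3]
      exact h5.symm
    · rw [Multiset.toFinset_card_of_nodup (nodup_roots hs), IsAlgClosed.card_roots_eq_natDegree,
        Φ.monic.natDegree_map]
      exact natDegree_map_le.trans_lt h2
  have h4 := congrArg (coeff · (P %ₘ Φ.f).natDegree) h3
  simp only [coeff_map, coeff_zero] at h4
  exact left_ne_zero_of_mul hq h4

/-- the ring `B[x][w][1 / Δ]` as a finite chart -/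
theorem CFin.of_data {B M ν : Type} [CommRing B] [Algebra ℂ B] [Field M] [Algebra ℂ M]
    (j : B →ₐ[ℂ] M) (x : ν → M) (w : M) {f : (MvPolynomial ν B)[X]} (hm : f.Monic)
    (hk : ∀ q : (MvPolynomial ν B)[X], q.eval₂ (MvPolynomial.eval₂Hom (j : B →+* M) x) w = 0 ↔ f ∣ q)
    {Δ : MvPolynomial ν B} (hΔ : MvPolynomial.eval₂Hom (j : B →+* M) x Δ ≠ 0)
    (hc : ∃ (A A' : (MvPolynomial ν B)[X]) (l : ℕ), f * A + derivative f * A' = C (Δ ^ l)) :
    ∃ (O : Subalgebra ℂ M) (inc : B →ₐ[ℂ] O) (x' : ν → O), (∀ a, (inc a : M) = j a) ∧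
      (∀ i, (x' i : M) = x i) ∧ (∀ (φ : M) (P : (MvPolynomial ν B)[X]) (l : ℕ),
        φ * MvPolynomial.eval₂Hom (j : B →+* M) x Δ ^ l =
          P.eval₂ (MvPolynomial.eval₂Hom (j : B →+* M) x) w → φ ∈ O) ∧
      (∃ Φ : Fini inc x', Φ.Δ = Δ ∧ Φ.f = f ∧ (Φ.w : M) = w) ∧
      (MvPolynomial.eval₂Hom (inc : B →+* O) x').Etale := by
  classical
  let R := MvPolynomial ν B
  let ρ : R →+* M := MvPolynomial.eval₂Hom (j : B →+* M) x
  have hC : ∀ a, ρ (MvPolynomial.C a) = j a := fun a => MvPolynomial.eval₂Hom_C _ _ a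
  have hX : ∀ i, ρ (MvPolynomial.X i) = x i := fun i => MvPolynomial.eval₂Hom_X' _ _ i
  let _ : Algebra R M := ρ.toAlgebra
  have : IsScalarTower ℂ R M := .of_algebraMap_eq fun c =>
    ((hC (algebraMap ℂ B c)).trans (j.commutes c)).symm
  obtain ⟨A, A', l, hcert⟩ := hc
  let O := CFin.ring w Δ
  have hO : ∀ q : R[X], aeval w q ∈ O := fun q => ⟨q, 0, by simp⟩
  have hR : ∀ g : R, ρ g ∈ O := fun g => by
    have := hO (C g)
    rwa [aeval_C] at this
  let inc : B →ₐ[ℂ] O := j.codRestrict O fun a => hC a ▸ hR (MvPolynomial.C a)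
  let x' : ν → O := fun i => ⟨x i, hX i ▸ hR (MvPolynomial.X i)⟩
  let ρ' : R →+* O := MvPolynomial.eval₂Hom (inc : B →+* O) x'
  have hC' : ∀ a, ρ' (MvPolynomial.C a) = inc a := fun a => MvPolynomial.eval₂Hom_C _ _ a
  have hX' : ∀ i, ρ' (MvPolynomial.X i) = x' i := fun i => MvPolynomial.eval₂Hom_X' _ _ i
  have hρ' : ∀ g, (ρ' g : M) = ρ g := fun g =>
    DFunLike.congr_fun (show (O.val : O →+* M).comp ρ' = ρ from
      MvPolynomial.ringHom_ext (fun a => (congrArg Subtype.val (hC' a)).trans (hC a).symm)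
        fun i => (congrArg Subtype.val (hX' i)).trans (hX i).symm) g
  let _ : Algebra R O := ρ'.toAlgebra
  let v : O →ₐ[R] M := { toRingHom := (O.val : O →+* M), commutes' := hρ' }
  let w' : O := ⟨w, by simpa using hO X⟩
  have hv : ∀ q : R[X], ((aeval w' q : O) : M) = aeval w q := fun q =>
    (aeval_algHom_apply v w' q).symm
  have hu : IsUnit (algebraMap R O Δ) :=
    IsUnit.of_mul_eq_one ⟨(algebraMap R M Δ)⁻¹, 1, 1, by
      rw [pow_one, map_one]; exact inv_mul_cancel₀ hΔ⟩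
      (Subtype.ext ((congrArg (· * _) (hρ' Δ)).trans (mul_inv_cancel₀ hΔ)))
  have hgen : ∀ φ : O, ∃ (P : R[X]) (l : ℕ), φ * algebraMap R O Δ ^ l = aeval w' P := by
    intro φ
    obtain ⟨P, l, e⟩ := φ.2
    exact ⟨P, l, Subtype.ext ((congrArg (fun y => (φ : M) * y ^ l) (hρ' Δ)).trans
      (e.trans (hv P).symm))⟩
  have hroot : aeval w' f = 0 := Subtype.ext ((hv f).trans ((hk f).2 dvd_rfl))
  let E : StandardEtalePair R := ⟨f, hm, C Δ, _, _, l, by rw [add_comm, hcert, C_pow]⟩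
  have hx : E.HasMap w' := ⟨hroot, by rw [show E.g = C Δ from rfl, aeval_C]; exact hu⟩
  have hbij : Function.Bijective (E.lift w' hx) := by
    constructor
    · rw [injective_iff_map_eq_zero]
      intro a ha
      obtain ⟨p, m, e3⟩ := StandardEtalePresentation.exists_mul_aeval_x_g_pow_eq_aeval_x
        ⟨E, E.X, E.hasMap_X, by simpa [E.lift_X_left] using Function.bijective_id⟩ a
      have e4 := congrArg (E.lift _ hx) e3
      rw [map_mul, ha, zero_mul, ← aeval_algHom_apply, E.lift_X] at e4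
      obtain ⟨q, hq⟩ := (hk p).1 ((hv p).symm.trans (by rw [← e4]; rfl))
      rw [hq, map_mul, show aeval E.X f = 0 from E.hasMap_X.1, zero_mul] at e3
      exact (E.hasMap_X.2.pow m).mul_left_eq_zero.1 e3
    · intro φ
      obtain ⟨P, l, e⟩ := hgen φ
      have hE : IsUnit (algebraMap R E.Ring Δ) := by
        have := E.hasMap_X.2
        rwa [show E.g = C Δ from rfl, aeval_C] at this
      obtain ⟨y, hy⟩ := (hE.pow l).exists_right_inv
      refine ⟨aeval E.X P * y, ?_⟩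
      have := congrArg (E.lift _ hx) hy
      rw [map_mul, map_pow, AlgHom.commutes, map_one] at this
      rw [map_mul, ← aeval_algHom_apply, E.lift_X, ← e, mul_assoc, this, mul_one]
  let e := AlgEquiv.ofBijective _ hbij
  refine ⟨O, inc, x', fun _ => rfl, fun _ => rfl, fun φ P l h => ⟨P, l, h⟩,
    ⟨⟨Δ, f, w', hm, hu, hroot, hgen, fun h => hΔ (by rw [h, map_zero]), fun b a z h1 h2 => ?_,
      _, _, l, hcert⟩, rfl, rfl, rfl⟩, RingHom.etale_algebraMap.2 (Algebra.Etale.of_equiv e)⟩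
  let _ : Algebra R ℂ := (MvPolynomial.eval₂Hom (b.hom : B →+* ℂ) a).toAlgebra
  have hz : E.HasMap z := ⟨h2, by
    rw [show E.g = C Δ from rfl, aeval_C]; exact Ne.isUnit h1⟩
  let φ : O →ₐ[R] ℂ := (E.lift z hz).comp e.symm.toAlgHom
  have hφ : ∀ g, φ (ρ' g) = MvPolynomial.eval₂Hom (b.hom : B →+* ℂ) a g := φ.commutes
  have h3 : ∀ y, φ (inc y) = b.hom y := fun y => by
    rw [← hC', hφ]; exact MvPolynomial.eval₂Hom_C _ _ y
  refine ⟨({ toRingHom := φ, commutes' := fun c => ?_ } : O →ₐ[ℂ] ℂ), AlgHom.ext h3,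
    fun i => ?_, ?_⟩
  · change φ _ = _
    rw [← inc.commutes, h3, AlgHom.commutes]
  · change φ _ = _
    rw [← hX', hφ]; exact MvPolynomial.eval₂Hom_X' _ _ i
  · change E.lift z hz (e.symm w') = z
    rw [show e.symm w' = E.X from e.symm_apply_eq.2 (E.lift_X _ hx).symm, E.lift_X]

end Pool.Agent.Lib.MP_5c318e_ag
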