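import Pool.Agent.Lib.MP_5c318e_ag.Va.Ker
import Pool.Agent.Lib.MP_5c318e_ag.Va.BC
import Pool.Agent.Lib.MP_5c318e_ag.S.LocA

/-! The pull-back of a family along a map of base charts. -/

set_option autoImplicit false
set_option linter.unusedSectionVars false

namespace Pool.Agent.Lib.MP_5c318e_ag

open MeasureTheory Set Polynomial

section li

variable {R k F ν : Type} [CommRing R] [Field k] [Field F] [Algebra k F]

/-- the expansion of a polynomial in monomials -/
theorem Pull.expand (i : R →+* k) (x : ν → F) (w : F) {n : ℕ} {P : (MvPolynomial ν R)[X]}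
    (hP : P.degree < n) (s : Finset (ν →₀ ℕ)) (hs : ∀ l, (P.coeff l).support ⊆ s) :
    P.eval₂ (MvPolynomial.eval₂Hom ((algebraMap k F).comp i) x) w =
      ∑ a ∈ s ×ˢ (Finset.univ : Finset (Fin n)),
        i ((P.coeff a.2).coeff a.1) • ((a.1.prod fun j e => x j ^ e) * w ^ (a.2 : ℕ)) := by
  rw [Finset.sum_product_right, eval₂_eq_sum, ← sum_fin _ (by simp) hP]
  refine Finset.sum_congr rfl fun l _ => ?_
  rw [MvPolynomial.coe_eval₂Hom, MvPolynomial.eval₂_eq, Finset.sum_subset (hs l) fun a _ ha => by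
    rw [MvPolynomial.notMem_support_iff.1 ha, map_zero, zero_mul], Finset.sum_mul]
  exact Finset.sum_congr rfl fun a _ => by rw [Algebra.smul_def, mul_assoc]; rfl

theorem Pull.zero_of_li {i : R →+* k} (hi : Function.Injective i) {x : ν → F} {w : F} {n : ℕ}
    (h : LinearIndependent k fun a : (ν →₀ ℕ) × Fin n =>
      (a.1.prod fun j e => x j ^ e) * w ^ (a.2 : ℕ)) {P : (MvPolynomial ν R)[X]} (hP : P.degree < n)
    (h0 : P.eval₂ (MvPolynomial.eval₂Hom ((algebraMap k F).comp i) x) w = 0) : P = 0 := by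
  classical
  have hs : ∀ l, (P.coeff l).support ⊆ P.support.biUnion fun l => (P.coeff l).support := fun l => by
    by_cases hl : l ∈ P.support
    · exact Finset.subset_biUnion_of_mem (fun l => (P.coeff l).support) hl
    · simp [notMem_support_iff.1 hl]
  rw [Pull.expand i x w hP _ hs] at h0
  have h1 := linearIndependent_iff'.1 h _ _ h0
  ext l a
  by_cases hl : l < n
  · by_contra h2
    exact h2 (hi ((h1 (a, ⟨l, hl⟩) (Finset.mem_product.2
      ⟨hs l (MvPolynomial.mem_support_iff.2 h2), Finset.mem_univ _⟩)).trans (map_zero i).symm))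
  · rw [coeff_eq_zero_of_degree_lt (hP.trans_le (Nat.cast_le.2 (not_lt.1 hl))), coeff_zero]

theorem Pull.li_of_zero {i : R →+* k} (hf : ∀ φ : k, ∃ a b : R, i b ≠ 0 ∧ φ * i b = i a) {x : ν → F}
    {w : F} {n : ℕ} (h : ∀ P : (MvPolynomial ν R)[X], P.degree < n →
      P.eval₂ (MvPolynomial.eval₂Hom ((algebraMap k F).comp i) x) w = 0 → P = 0) :
    LinearIndependent k fun a : (ν →₀ ℕ) × Fin n =>
      (a.1.prod fun j e => x j ^ e) * w ^ (a.2 : ℕ) := by
  classical
  choose u v hv e using hf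
  refine linearIndependent_iff'.2 fun s g h0 a ha => ?_
  let c : (ν →₀ ℕ) × Fin n → R := fun b => u (g b) * ∏ b' ∈ s.erase b, v (g b')
  have hc : ∀ b ∈ s, i (c b) = (∏ b' ∈ s, i (v (g b'))) * g b := fun b hb => by
    rw [map_mul, ← e, map_prod, ← Finset.mul_prod_erase s _ hb]
    ring
  have h1 := h (∑ b ∈ s, monomial b.2 (MvPolynomial.monomial b.1 (c b)))
    ((degree_sum_le _ _).trans_lt ((Finset.sup_lt_iff (WithBot.bot_lt_coe n)).2 fun b _ =>
      (degree_monomial_le _ _).trans_lt (Nat.cast_lt.2 b.2.2))) (by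
      rw [eval₂_finsetSum, ← smul_zero (∏ b' ∈ s, i (v (g b'))), ← h0, Finset.smul_sum]
      refine Finset.sum_congr rfl fun b hb => ?_
      rw [eval₂_monomial, MvPolynomial.eval₂Hom_monomial, RingHom.comp_apply, hc b hb, smul_smul,
        Algebra.smul_def, mul_assoc])
  have h2 := congrArg (fun P => (P.coeff a.2).coeff a.1) h1
  simp only [finsetSum_coeff, MvPolynomial.coeff_sum, coeff_zero, MvPolynomial.coeff_zero] at h2
  rw [Finset.sum_eq_single a (fun b _ hb => ?_) fun h => (h ha).elim, coeff_monomial, if_pos rfl,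
    MvPolynomial.coeff_monomial, if_pos rfl] at h2
  · have h3 := hc a ha
    rw [h2, map_zero] at h3
    exact (mul_eq_zero.1 h3.symm).resolve_left (Finset.prod_ne_zero_iff.2 fun b _ => hv _)
  · rw [coeff_monomial]
    split_ifs with h3
    · rw [MvPolynomial.coeff_monomial, if_neg fun h4 => hb (Prod.ext h4 (Fin.ext h3))]
    · rfl

end li

variable {δ δ1 ν K M K1 M1 : Type} [Fintype δ] [DecidableEq δ] [Fintype δ1] [DecidableEq δ1]
  [Fintype ν] [DecidableEq ν] [Field K] [Algebra ℂ K] [Field M] [Algebra ℂ M] [Algebra K M]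
  [IsScalarTower ℂ K M] [Field K1] [Algebra ℂ K1] [Field M1] [Algebra ℂ M1] [Algebra K1 M1]
  [IsScalarTower ℂ K1 M1] [Algebra K K1] [Algebra M M1] [Algebra K M1] [IsScalarTower K M M1]
  [IsScalarTower K K1 M1] [Algebra.IsAlgebraic K K1] {B : Cht δ K}

theorem Fam.ev_coe (T : Fam B ν M) (P : (MvPolynomial ν B.O)[X]) :
    ((P.eval₂ (MvPolynomial.eval₂Hom (T.inc : B.O →+* T.X.O) fun i => T.X.z (Sum.inr i))
      T.finX.w : T.X.O) : M) =
      P.eval₂ (MvPolynomial.eval₂Hom ((algebraMap K M).comp (B.O.val : B.O →+* K)) T.x) T.finX.w := by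
  refine (hom_eval₂ P _ (T.X.O.val : T.X.O →+* M) _).trans ?_
  congr 1
  refine MvPolynomial.ringHom_ext (fun r => ?_) fun i => ?_
  · simpa using T.inc_eq r
  · simp [Rel.x]

/-- the monomials `x ^ a w ^ l` are independent over the function field of the base -/
theorem Fam.li (T : Fam B ν M) : LinearIndependent K
    fun a : (ν →₀ ℕ) × Fin T.finX.f.natDegree =>
      (a.1.prod fun j e => T.x j ^ e) * (T.finX.w : M) ^ (a.2 : ℕ) :=
  Pull.li_of_zero (i := (B.O.val : B.O →+* K))
    (fun φ => (B.frac φ).imp fun _ h => h.imp fun _ h => ⟨fun e => h.1 (Subtype.ext e), h.2⟩)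
    fun P hP h => eq_zero_of_dvd_of_degree_lt
      (T.finX.ker (Subtype.ext ((T.ev_coe P).trans h)))
      (by rwa [degree_eq_natDegree T.finX.monic.ne_zero])

/-- the function field is generated by the fibre coordinates and the root -/
theorem Fam.gen_top (T : Fam B ν M) {F : Subfield M} (hK : ∀ a, algebraMap K M a ∈ F)
    (hx : ∀ i, T.x i ∈ F) (hw : (T.finX.w : M) ∈ F) (φ : M) : φ ∈ F := by
  have h1 : ∀ q : MvPolynomial ν B.O,
      MvPolynomial.eval₂Hom ((algebraMap K M).comp (B.O.val : B.O →+* K)) T.x q ∈ F := fun q => by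
    induction q using MvPolynomial.induction_on with
    | C c => rw [MvPolynomial.eval₂Hom_C]; exact hK _
    | add p q hp hq => rw [map_add]; exact add_mem hp hq
    | mul_X p i hp => rw [map_mul, MvPolynomial.eval₂Hom_X']; exact mul_mem hp (hx i)
  have h2 : ∀ P : (MvPolynomial ν B.O)[X], P.eval₂ (MvPolynomial.eval₂Hom
      ((algebraMap K M).comp (B.O.val : B.O →+* K)) T.x) T.finX.w ∈ F := fun P => by
    rw [eval₂_eq_sum]
    exact sum_mem fun l _ => mul_mem (h1 _) (pow_mem hw _)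
  have h3 : ∀ a : T.X.O, (a : M) ∈ F := fun a => by
    obtain ⟨P, l, e⟩ := T.finX.gen a
    have e1 := T.ev_coe (C T.finX.Δ)
    rw [eval₂_C, eval₂_C] at e1
    have e2 := (congrArg Subtype.val e).trans (T.ev_coe P)
    have h4 : ((MvPolynomial.eval₂ (T.inc : B.O →+* T.X.O) (fun i => T.X.z (Sum.inr i)) T.finX.Δ :
        T.X.O) : M) ≠ 0 := fun e => T.finX.unit.ne_zero (Subtype.ext e)
    rw [MulMemClass.coe_mul, SubmonoidClass.coe_pow, ← eq_div_iff (pow_ne_zero _ h4)] at e2
    rw [e2]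
    exact div_mem (h2 P) (pow_mem (e1.symm ▸ h1 _) _)
  obtain ⟨a, b, hb, e⟩ := T.X.frac φ
  rw [eq_div_of_mul_eq (fun e => hb (Subtype.ext e)) e]
  exact div_mem (h3 a) (h3 b)

theorem Fam.pull (T : Fam B ν M)
    (hc : ∀ x : M, IsAlgebraic K x → x ∈ range (algebraMap K M))
    (hg : IntermediateField.adjoin M (range (algebraMap K1 M1)) = ⊤) (B1 : Cht δ1 K1)
    (hB : Nonempty (Fini (Algebra.ofId ℂ B1.O) B1.z)) (β : B.O →ₐ[ℂ] B1.O) (S : T.X.O →ₐ[ℂ] M1)
    (hS : ∀ a, S (T.inc a) = algebraMap K1 M1 (β a))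
    (hx : ∀ i, S (T.X.z (Sum.inr i)) = algebraMap M M1 (T.x i))
    (hw : S T.finX.w = algebraMap M M1 T.finX.w) :
    ∃ (T1 : Fam B1 ν M1) (j : T.X.O →ₐ[ℂ] T1.X.O), (∀ a, (j a : M1) = S a) ∧
      (∀ i, T1.x i = algebraMap M M1 (T.x i)) ∧
      ∀ (b : Pt B1.O) (G : Pt T.X.O → ENNReal), Measurable G →
        ∫⁻ q, G (q.1.res j) ∂(T1.fib b).μ = ∫⁻ p, G p.1 ∂(T.fib (b.res β)).μ := by
  have : CharZero K := charZero_of_injective_algebraMap (algebraMap ℂ K).injective
  let j1 : B1.O →ₐ[ℂ] M1 := (IsScalarTower.toAlgHom ℂ K1 M1).comp B1.O.val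
  let x1 : ν → M1 := fun i => algebraMap M M1 (T.x i)
  have e1 : (MvPolynomial.eval₂Hom (j1 : B1.O →+* M1) x1).comp
      (MvPolynomial.map (β : B.O →+* B1.O)) = (S : T.X.O →+* M1).comp
      (MvPolynomial.eval₂Hom (T.inc : B.O →+* T.X.O) fun i => T.X.z (Sum.inr i)) :=
    MvPolynomial.ringHom_ext (fun r => by simpa [j1] using (hS r).symm) fun i => by
      simpa using (hx i).symm
  have e2 : ∀ P : (MvPolynomial ν B.O)[X], (P.map (MvPolynomial.map (β : B.O →+* B1.O))).eval₂
      (MvPolynomial.eval₂Hom (j1 : B1.O →+* M1) x1) (S T.finX.w) = S (P.eval₂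
      (MvPolynomial.eval₂Hom (T.inc : B.O →+* T.X.O) fun i => T.X.z (Sum.inr i)) T.finX.w) :=
    fun P => by rw [eval₂_map, e1]; exact (hom_eval₂ P _ (S : T.X.O →+* M1) _).symm
  have e3 : MvPolynomial.eval₂Hom (j1 : B1.O →+* M1) x1
      (MvPolynomial.map (β : B.O →+* B1.O) T.finX.Δ) = S (MvPolynomial.eval₂
        (T.inc : B.O →+* T.X.O) (fun i => T.X.z (Sum.inr i)) T.finX.Δ) :=
    RingHom.congr_fun e1 _
  have hm := T.finX.monic.map (MvPolynomial.map (β : B.O →+* B1.O))
  have hr := (e2 T.finX.f).trans (by rw [T.finX.root, map_zero])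
  have hl := bc_li0 K1 M1 hc T.li
  simp only [Function.comp_def, map_mul, map_pow, Finsupp.prod, map_prod, ← hw] at hl
  obtain ⟨O, inc, x', hi, hx', hO, ⟨Φ, f1, f2, f3⟩, he⟩ := CFin.of_data j1 x1 (S T.finX.w) hm
    (fun q => ⟨fun h => (modByMonic_eq_zero_iff_dvd hm).1 (Pull.zero_of_li
      (i := (B1.O.val : B1.O →+* K1)) Subtype.val_injective hl (by
        rw [← T.finX.monic.natDegree_map (MvPolynomial.map (β : B.O →+* B1.O)),
          ← degree_eq_natDegree hm.ne_zero]
        exact degree_modByMonic_lt q hm) (by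
        have := congrArg (eval₂ (MvPolynomial.eval₂Hom (j1 : B1.O →+* M1) x1) (S T.finX.w))
          (modByMonic_add_div q (T.finX.f.map (MvPolynomial.map (β : B.O →+* B1.O))))
        rw [eval₂_add, eval₂_mul, hr, zero_mul, add_zero, h] at this
        exact this)), by
      rintro ⟨q, rfl⟩
      rw [eval₂_mul, hr, zero_mul]⟩)
    (Δ := MvPolynomial.map (β : B.O →+* B1.O) T.finX.Δ) (e3 ▸ (T.finX.unit.map S).ne_zero) (by
      obtain ⟨A, A', l, e⟩ := T.finX.cert
      exact ⟨A.map (MvPolynomial.map (β : B.O →+* B1.O)),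
        A'.map (MvPolynomial.map (β : B.O →+* B1.O)), l, by
        rw [derivative_map, ← Polynomial.map_mul, ← Polynomial.map_mul, ← Polynomial.map_add, e,
          map_C, map_pow]⟩)
  have hSO : ∀ a, S a ∈ O := fun a => by
    obtain ⟨P, l, e⟩ := T.finX.gen a
    exact hO _ (P.map (MvPolynomial.map (β : B.O →+* B1.O))) l (by
      rw [e2, e3, ← e, map_mul, map_pow])
  have hf : ∀ φ : M1, ∃ a b : O, b ≠ 0 ∧ φ * b = a := fun φ => by
    have h1 : ∀ a : K1, algebraMap K1 M1 a ∈ Subfield.closure (O : Set M1) := fun a => by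
      obtain ⟨u, v, hv, e⟩ := B1.frac a
      rw [eq_div_of_mul_eq (fun e => hv (Subtype.ext e)) e, map_div₀]
      exact div_mem (Subfield.subset_closure ((hi u).symm ▸ (inc u).2 :))
        (Subfield.subset_closure ((hi v).symm ▸ (inc v).2 :))
    have h2 : ∀ a : M, algebraMap M M1 a ∈ Subfield.closure (O : Set M1) :=
      T.gen_top (F := (Subfield.closure (O : Set M1)).comap (algebraMap M M1))
        (fun a => by
          rw [Subfield.mem_comap, ← IsScalarTower.algebraMap_apply,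
            IsScalarTower.algebraMap_apply K K1 M1]
          exact h1 _)
        (fun i => Subfield.subset_closure (hx i ▸ hSO _ :)) (Subfield.subset_closure (hw ▸ hSO _ :))
    have h3 : φ ∈ Subfield.closure (O : Set M1) :=
      (IntermediateField.adjoin_le_iff (T := (Subfield.closure (O : Set M1)).toIntermediateField h2)
        |>.2 (range_subset_iff.2 h1)) (hg ▸ IntermediateField.mem_top)
    obtain ⟨a, ha, b, hb, e⟩ := Subfield.mem_closure_iff.1 h3
    have hle : Subring.closure (O : Set M1) ≤ O.toSubring := Subring.closure_le.2 subset_rfl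
    by_cases h0 : b = 0
    · exact ⟨0, 1, one_ne_zero, by simp [← e, h0]⟩
    · exact ⟨⟨a, hle ha⟩, ⟨b, hle hb⟩, fun e => h0 (congrArg Subtype.val e), by
        rw [← e]; exact div_mul_cancel₀ a h0⟩
  have hb : IsTranscendenceBasis ℂ fun k => ((Sum.elim (fun i => inc (B1.z i)) x' k : O) : M1) := by
    have e : (fun k => ((Sum.elim (fun i => inc (B1.z i)) x' k : O) : M1)) =
        Sum.elim (algebraMap K1 M1 ∘ fun i => (B1.z i : K1)) x1 := funext fun k => by
      rcases k with k | k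
      · exact hi _
      · exact hx' _
    rw [e]
    exact basis_sum B1.basis (bc_basis hg T.basis)
  obtain ⟨X, rfl, h⟩ := Cht.of_etale O _ hb hf (etale_tower B1.et inc he)
  obtain ⟨T1, rfl⟩ := Rel.of_cht B1 X (fun a ha => ((hi ⟨a, ha⟩).symm ▸ (inc _).2 :))
    fun i => (h _).trans (hi _)
  obtain rfl : T1.inc = inc := AlgHom.ext fun a => Subtype.ext ((T1.inc_eq a).trans (hi a).symm)
  obtain rfl : (fun i => T1.X.z (Sum.inr i)) = x' := funext fun i => Subtype.ext (h _)
  let j : T.X.O →ₐ[ℂ] T1.X.O := S.codRestrict _ hSO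
  have c1 : ∀ a, j (T.inc a) = T1.inc (β a) := fun a => Subtype.ext ((hS a).trans (hi _).symm)
  have c2 : ∀ i, j (T.X.z (Sum.inr i)) = T1.X.z (Sum.inr i) := fun i =>
    Subtype.ext ((hx i).trans (hx' i).symm)
  have c3 : j T.finX.w = Φ.w := Subtype.ext f3.symm
  refine ⟨⟨T1, hB.some, Φ⟩, j, fun _ => rfl, hx', fun b G hG => ?_⟩
  let t : T1.Fib b → T.Fib (b.res β) := fun q => ⟨q.1.res j, Pt.ext fun a =>
    (congrArg q.1 (c1 a)).trans (DFunLike.congr_fun q.2 (β a))⟩
  have ht : Continuous t := ((Pt.continuous_res _).comp continuous_subtype_val).subtype_mk _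
  have key := (T1.fib b).lint_bij (T.fib (b.res β)) MeasurableSet.univ MeasurableSet.univ
    ht.measurable (bijOn_univ.2 ⟨fun p q e => ?_, fun p => ?_⟩) (fun q _ => ?_)
    (hG.comp measurable_subtype_coe)
  · rwa [Measure.restrict_univ, Measure.restrict_univ] at key
  · have e' : p.1.res j = q.1.res j := congrArg Subtype.val e
    exact Subtype.ext (Φ.pt_ext (p.2.trans q.2.symm)
      (fun i => c2 i ▸ DFunLike.congr_fun e' _) (c3 ▸ DFunLike.congr_fun e' _))
  · have h1 := T.finX.Δ_ne p.1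
    have h2 := T.finX.root_pt p.1
    rw [p.2, MvPolynomial.eval_map] at h1
    rw [p.2, ev2_map] at h2
    obtain ⟨q, q1, q2, q3⟩ := Φ.ex b (fun i => p.1 (T.X.z (Sum.inr i))) (p.1 T.finX.w)
      (by rw [f1, MvPolynomial.eval₂_map]; exact h1) (by
        rw [f2, eval₂_map]
        convert h2 using 2
        exact MvPolynomial.ringHom_ext (fun r => by simp) fun i => by simp)
    exact ⟨⟨q, q1⟩, Subtype.ext (T.finX.pt_ext ((t ⟨q, q1⟩).2.trans p.2.symm)
      (fun i => (congrArg q (c2 i)).trans (q2 i)) ((congrArg q c3).trans q3))⟩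
  · rw [T.toRel.π_fun, T1.π_fun]
    exact funext fun i => congrArg q.1 (c2 i)

end Pool.Agent.Lib.MP_5c318e_ag
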