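import Pool.Agent.Lib.MP_5c318e_ag.Va.Pull
import Pool.Agent.Lib.MP_5c318e_ag.Va.BC
import Pool.Agent.Lib.MP_5c318e_ag.D.Ex

/-! Pull-back of a set-up along an algebraic extension of the base, with a change of frame. -/

set_option autoImplicit false
set_option linter.unusedSectionVars false

namespace Pool.Agent.Lib.MP_5c318e_ag

open MeasureTheory Set Filter Topology Matrix

section lin
variable {k V n : Type} [Field k] [AddCommGroup V] [Module k V] [Fintype n] [DecidableEq n]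
  {A : Matrix n n k} {t : n → V}

theorem pd_back (hd : A.det ≠ 0) (t : n → V) (l : n) :
    t l = ∑ i, A⁻¹ i l • ∑ j, A j i • t j := by
  simp only [Finset.smul_sum, smul_smul]
  rw [Finset.sum_comm]
  simp only [← Finset.sum_smul, mul_comm (A⁻¹ _ l), ← mul_apply,
    mul_nonsing_inv A (isUnit_iff_ne_zero.2 hd), one_apply, ite_smul, one_smul, zero_smul,
    Finset.sum_ite_eq', Finset.mem_univ, if_true]

theorem pd_span (hd : A.det ≠ 0) (t : n → V) :
    Submodule.span k (range fun i => ∑ j, A j i • t j) = Submodule.span k (range t) := by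
  refine le_antisymm (Submodule.span_le.2 ?_) (Submodule.span_le.2 ?_)
  · rintro _ ⟨i, rfl⟩
    exact Submodule.sum_mem _ fun j _ => Submodule.smul_mem _ _ (Submodule.subset_span ⟨j, rfl⟩)
  · rintro _ ⟨l, rfl⟩
    rw [pd_back hd t l]
    exact Submodule.sum_mem _ fun i _ => Submodule.smul_mem _ _ (Submodule.subset_span ⟨i, rfl⟩)

theorem pd_li (hd : A.det ≠ 0) (h : LinearIndependent k t) :
    LinearIndependent k fun i => ∑ j, A j i • t j := by
  rw [Fintype.linearIndependent_iff] at h ⊢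
  intro g hg
  simp only [Finset.smul_sum, smul_smul] at hg
  rw [Finset.sum_comm] at hg
  simp only [← Finset.sum_smul] at hg
  exact congrFun (eq_zero_of_mulVec_eq_zero hd (funext fun j => by
    simpa only [mulVec, dotProduct, mul_comm, Pi.zero_apply] using h _ hg j))

end lin

variable {δ δ1 ν K M K1 M1 : Type} [Fintype δ] [DecidableEq δ] [Fintype δ1] [DecidableEq δ1]
  [Fintype ν] [DecidableEq ν] [Field K] [Algebra ℂ K] [Field M] [Algebra ℂ M] [Algebra K M]
  [IsScalarTower ℂ K M] [Field K1] [Algebra ℂ K1] [Field M1] [Algebra ℂ M1] [Algebra K1 M1]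
  [IsScalarTower ℂ K1 M1] [Algebra K K1] [Algebra M M1] [Algebra K M1] [IsScalarTower K M M1]
  [IsScalarTower K K1 M1] [Algebra.IsAlgebraic K K1]

theorem Dat.pull (d : Dat δ K ν M) (hg : IntermediateField.adjoin M (range (algebraMap K1 M1)) = ⊤)
    (hK : SmoothModel ℂ K1) {y : δ1 → K1} {dK : δ1 → Derivation ℂ K1 K1} (hy : Dual ℂ y dK) {k : ℕ}
    (hk : 0 < k) {η : K1} (h0 : η ≠ 0) (hη : Plu dK k η) (β : d.B.O →ₐ[ℂ] K1)
    (S : d.T.X.O →ₐ[ℂ] M1) (hS : ∀ a, S (d.T.inc a) = algebraMap K1 M1 (β a))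
    (hx : ∀ i, S (d.T.X.z (Sum.inr i)) = algebraMap M M1 (d.T.x i))
    (hw : S d.T.finX.w = algebraMap M M1 d.T.finX.w)
    (hτ : ∀ i, S (d.τ i) = algebraMap M M1 (d.τ i)) (A : Matrix (Fin d.r) (Fin d.r) K1)
    (hd : A.det ≠ 0) :
    ∃ (d1 : Dat δ1 K1 ν M1) (β1 : d.B.O →ₐ[ℂ] d1.B.O) (A1 : Matrix (Fin d.r) (Fin d.r) d1.B.O)
      (e : d1.r = d.r), (∀ a, (β1 a : K1) = β a) ∧ (∀ i j, (A1 i j : K1) = A i j) ∧
      ∀ (b : Pt d1.B.O) a, d1.Nn b a = d.Nn (b.res β1) (A1.map b *ᵥ fun i => a (i.cast e.symm)) := by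
  classical
  have : CharZero K := charZero_of_injective_algebraMap (algebraMap ℂ K).injective
  have : CharZero K1 := charZero_of_injective_algebraMap (algebraMap ℂ K1).injective
  obtain ⟨s, hs⟩ := d.B.ft.out
  obtain ⟨B1, hz, hm, hF⟩ := exists_base hK.fg hy.basis
    (s.image β ∪ Finset.univ.image fun p : Fin d.r × Fin d.r => A p.1 p.2)
  have mβ : ∀ a, β a ∈ B1.O := fun a => by
    have : Algebra.adjoin ℂ (s : Set d.B.O) ≤ B1.O.comap β := Algebra.adjoin_le fun a ha =>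
      hm _ (Finset.mem_union_left _ (Finset.mem_image_of_mem _ ha))
    exact this (hs ▸ Algebra.mem_top)
  have mA : ∀ i j, A i j ∈ B1.O := fun i j =>
    hm _ (Finset.mem_union_right _ (Finset.mem_image_of_mem _ (Finset.mem_univ (i, j))))
  obtain ⟨T1, j, hj, hx1, hI⟩ := d.T.pull d.ac hg B1 hF (β.codRestrict B1.O mβ) S hS hx hw
  obtain rfl : B1.der = dK := Dual.uniq (funext hz ▸ B1.dual) hy
  have eτ : (fun i => ((∑ l, T1.inc ⟨A l i, mA l i⟩ * j (d.τ l) : T1.X.O) : M1)) =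
      fun i => ∑ l, A l i • algebraMap M M1 (d.τ l) := funext fun i => by
    simp only [AddSubmonoidClass.coe_finsetSum, MulMemClass.coe_mul, T1.inc_eq, hj, hτ,
      Algebra.smul_def]
  have hd1 : Dual K1 (algebraMap M M1 ∘ d.T.x) T1.dx :=
    (funext hx1 : T1.x = algebraMap M M1 ∘ d.T.x) ▸ T1.dual
  obtain ⟨d1, h, L, e1, -, -, ⟨e, he⟩, -⟩ := Dat.of_fam hK (d.hM.bc hg d.ac) (bc_ac d.ac hg) T1
    d.hm hk d.hr (τ := fun i => ∑ l, T1.inc ⟨A l i, mA l i⟩ * j (d.τ l)) (fun φ => by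
      rw [eτ, pd_span hd]
      exact bc_plu0 hg d.ac d.T.dual hd1 d.span φ)
    (eτ ▸ pd_li hd (bc_li d.ac d.ind)) h0 hη ∅
  refine ⟨d1, L.base.j.comp (β.codRestrict B1.O mβ), fun i l => L.base.j ⟨A i l, mA i l⟩, e,
    fun _ => rfl, fun _ _ => rfl, fun b a => ?_⟩
  set c : Fin d.r → ℂ := Matrix.map (fun i l => L.base.j ⟨A i l, mA i l⟩) b *ᵥ
    fun i => a (i.cast e.symm) with hc
  rw [Dat.Nn, Dat.Nn, e1]
  refine congrArg _ (Eq.trans ?_ ((L.lint b fun p =>
    ‖c ⬝ᵥ fun i => p.1 (j (d.τ i))‖ₑ ^ (2 / d.m : ℝ)).trans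
    (hI _ (fun p => ‖c ⬝ᵥ fun i => p (d.τ i)‖ₑ ^ (2 / d.m : ℝ)) ?_)))
  · refine lintegral_congr fun q => congrArg (fun z : ℂ => ‖z‖ₑ ^ (2 / d.m : ℝ)) ?_
    have e2 : ∀ i, q.1 (d1.τ i) = ∑ l, b (L.base.j ⟨A l (i.cast e), mA _ _⟩) *
        (L.e b q).1 (j (d.τ l)) := fun i => by
      rw [show d1.τ i = L.top.j (∑ l, T1.inc ⟨A l (i.cast e), mA _ _⟩ * j (d.τ l)) from
        Subtype.ext (he i), map_sum, map_sum]
      refine Finset.sum_congr rfl fun l _ => ?_
      rw [map_mul, map_mul, ← L.comm]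
      exact congrArg (· * _) (DFunLike.congr_fun q.2 _)
    simp only [hc, dotProduct, mulVec, Rel.fr, e2, Finset.mul_sum, Finset.sum_mul, map_apply]
    rw [Finset.sum_comm]
    refine Finset.sum_congr rfl fun l _ => Fintype.sum_equiv (finCongr e) _ _ fun i => ?_
    simp only [finCongr_apply, Fin.cast_cast, Fin.cast_eq_self]
    ring
  · exact (Continuous.measurable (continuous_finsetSum _ fun i _ =>
      continuous_const.mul (Pt.continuous_apply _))).enorm.pow_const _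

end Pool.Agent.Lib.MP_5c318e_ag
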