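import Pool.Agent.Lib.MP_5c318e_ag.Ctx

/-! A second complex structure that agrees with the first on finitely many constants. -/

set_option autoImplicit false

namespace Pool.Agent.Lib.MP_5c318e_ag

open Set Cardinal

/-- uncountable algebraically closed fields of the same size are isomorphic over a countable
field -/
theorem tw_equiv (R K L : Type) [Field R] [Field K] [Field L] [Algebra R K] [Algebra R L]
    [IsAlgClosed K] [IsAlgClosed L] (hR : #R ≤ ℵ₀) (hK : ℵ₀ < #K) (h : #K = #L) :
    ∃ e : K ≃+* L, ∀ a, e (algebraMap R K a) = algebraMap R L a := by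
  obtain ⟨s, hs⟩ := exists_isTranscendenceBasis R K
  obtain ⟨t, ht⟩ := exists_isTranscendenceBasis R L
  obtain ⟨e⟩ := Cardinal.eq.1 ((IsAlgClosed.cardinal_eq_cardinal_transcendence_basis_of_aleph0_lt'
    _ hs hR hK).symm.trans (h.trans
      (IsAlgClosed.cardinal_eq_cardinal_transcendence_basis_of_aleph0_lt' _ ht hR (h ▸ hK))))
  have := IsAlgClosed.isAlgClosure_of_transcendence_basis _ hs
  have := IsAlgClosed.isAlgClosure_of_transcendence_basis _ ht
  let f := hs.1.aevalEquiv.symm.trans ((MvPolynomial.renameEquiv R e).trans ht.1.aevalEquiv)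
  refine ⟨IsAlgClosure.equivOfEquiv K L f.toRingEquiv, fun a => ?_⟩
  rw [IsScalarTower.algebraMap_apply R (Algebra.adjoin R (range ((↑) : s → K))) K,
    IsAlgClosure.equivOfEquiv_algebraMap,
    IsScalarTower.algebraMap_apply R (Algebra.adjoin R (range ((↑) : t → L))) L]
  exact congrArg _ (f.commutes a)

set_option linter.unusedVariables false in
theorem exists_twist {Om ι : Type} [Field Om] [IsAlgClosed Om] [Finite ι] (c : ℂ →+* Om)
    {z : ι → Om} (hz : AlgebraicIndependent c.fieldRange z) (s : Finset ℂ) :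
    ∃ c' : ℂ →+* Om, c'.fieldRange = acl (adj c.fieldRange (range z)) ∧ ∀ a ∈ s, c' a = c a := by
  set F := adj c.fieldRange (range z)
  have hc : ∀ a, c a ∈ acl F := fun a =>
    (algebraicClosure F Om).algebraMap_mem ⟨c a, Subfield.subset_closure (Or.inl ⟨a, rfl⟩)⟩
  have : IsAlgClosed (acl F) := (algebraicClosure.isAlgClosure F Om).isAlgClosed
  let k0 := Subfield.closure (s : Set ℂ)
  let c1 : ℂ →+* acl F := c.codRestrict _ hc
  let _ : Algebra k0 (acl F) := (c1.comp k0.subtype).toAlgebra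
  have h0 : ℵ₀ < #ℂ := mk_complex ▸ aleph0_lt_continuum
  have h1 : #F ≤ #ℂ := (Subfield.cardinalMk_closure_le_max _).trans (max_le
    ((mk_union_le _ _).trans (add_le_of_le h0.le mk_range_le
      ((finite_range z).lt_aleph0.trans h0).le)) h0.le)
  obtain ⟨e, he⟩ := tw_equiv k0 ℂ (acl F) ((Subfield.cardinalMk_closure_le_max _).trans
    (max_le s.finite_toSet.lt_aleph0.le le_rfl)) h0 (le_antisymm (mk_le_of_injective c1.injective)
      ((Algebra.IsAlgebraic.cardinalMk_le_max F (algebraicClosure F Om)).trans (max_le h1 h0.le)))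
  refine ⟨(acl F).subtype.comp e.toRingHom, Subfield.ext fun x => ⟨?_, fun hx => ?_⟩,
    fun a ha => congrArg Subtype.val (he ⟨a, Subfield.subset_closure ha⟩)⟩
  · rintro ⟨a, rfl⟩
    exact (e a).2
  · exact ⟨e.symm ⟨x, hx⟩, congrArg Subtype.val (e.apply_symm_apply _)⟩

theorem exists_const {A : Type} [CommRing A] [Algebra ℂ A] [Algebra.FiniteType ℂ A] (t : Finset A) :
    ∃ s : Finset ℂ, ∀ (F : Type) [CommRing F] [Algebra ℂ F] (ψ : A →+* F),
      (∀ a ∈ s, ψ (algebraMap ℂ A a) = algebraMap ℂ F a) →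
      ∃ S : A →ₐ[ℂ] F, ∀ a ∈ t, S a = ψ a := by
  classical
  obtain ⟨n, f, hf⟩ := Algebra.FiniteType.iff_quotient_mvPolynomial''.1 ‹Algebra.FiniteType ℂ A›
  obtain ⟨G, hG⟩ := IsNoetherian.noetherian (RingHom.ker f)
  choose p hp using hf
  refine ⟨(G ∪ t.image p).biUnion MvPolynomial.coeffs, fun F _ _ ψ h => ?_⟩
  have key : ∀ q ∈ G ∪ t.image p,
      MvPolynomial.aeval (fun i => ψ (f (MvPolynomial.X i))) q = ψ (f q) := fun q hq => by
    conv_rhs => rw [← MvPolynomial.aeval_X_left_apply q, MvPolynomial.comp_aeval_apply]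
    simp only [MvPolynomial.aeval_def, MvPolynomial.eval₂_eq, map_sum, map_mul, map_prod, map_pow]
    exact Finset.sum_congr rfl fun m hm => by
      rw [h _ (Finset.mem_biUnion.2 ⟨q, hq, MvPolynomial.coeff_mem_coeffs m
        (MvPolynomial.mem_support_iff.1 hm)⟩)]
  refine ⟨AlgHom.liftOfSurjective f (fun a => ⟨p a, hp a⟩)
    (MvPolynomial.aeval fun i => ψ (f (MvPolynomial.X i))) ?_, fun a ha => ?_⟩
  · change RingHom.ker f ≤ _
    rw [← hG]
    refine Submodule.span_le.2 fun q hq => (key q (Finset.mem_union_left _ hq)).trans ?_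
    rw [show f q = 0 from RingHom.mem_ker.1 (hG ▸ Submodule.subset_span hq), map_zero]
  · conv_lhs => rw [← hp a]
    rw [AlgHom.liftOfSurjective_apply,
      key _ (Finset.mem_union_right _ (Finset.mem_image_of_mem p ha)), hp]

end Pool.Agent.Lib.MP_5c318e_ag
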