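import Pool.Agent.Lib.MP_5c318e_ag.Va.FrameB
import Pool.Agent.Lib.MP_5c318e_ag.Va.Twist
import Pool.Agent.Lib.MP_5c318e_ag.Cv.Curve
import Pool.Agent.Lib.MP_5c318e_ag.S.CCov

/-! A coordinate slice of the base is a curve for a second complex structure. -/

set_option autoImplicit false

namespace Pool.Agent.Lib.MP_5c318e_ag

open MeasureTheory Set Filter Topology Matrix

variable {δ δ1 ε γ ν K M K1 M1 : Type} [Fintype δ] [DecidableEq δ] [Fintype δ1] [DecidableEq δ1]
  [Fintype ε] [DecidableEq ε] [Fintype γ] [DecidableEq γ] [Fintype ν] [DecidableEq ν]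
  [Field K] [Algebra ℂ K] [Field M] [Algebra ℂ M] [Algebra K M]
  [Field K1] [Algebra ℂ K1] [Field M1] [Algebra ℂ M1] [Algebra K1 M1]

/-- holomorphic germs pull back along algebra maps -/
theorem Cht.diff_res (B : Cht δ K) (B1 : Cht δ1 K1) (β : B.O →ₐ[ℂ] B1.O) {F : Pt B.O → ℂ}
    {b : Pt B1.O} (h : DifferentiableAt ℂ (fun z => F (B.D.sec (b.res β) z)) (B.D.π (b.res β))) :
    DifferentiableAt ℂ (fun z => F ((B1.D.sec b z).res β)) (B1.D.π b) := by
  have h1 : DifferentiableAt ℂ (fun z => B.D.π ((B1.D.sec b z).res β)) (B1.D.π b) :=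
    differentiableAt_pi.2 fun i => by
      simp only [B.π_eq]
      exact B1.hol (β (B.z i)) b
  refine (DifferentiableAt.comp (B1.D.π b) (by rwa [B1.D.sec_self]) h1).congr_of_eventuallyEq ?_
  exact ((((Pt.continuous_res β).tendsto b).comp (B1.D.tendsto_sec b)).eventually
    ((B.D.ch _).open_source.mem_nhds (B.D.mem_src _))).mono fun z hz =>
      congrArg F (RD.sec_π hz).symm

/-- parallel frames along the fibres of `w` pull back to a base on which `w` is constant -/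
theorem Dat.ParData.all {d : Dat (ε ⊕ γ) K ν M} {g : d.B.O} {a1 : ℕ} (h : d.ParData g a1)
    {d1 : Dat δ1 K1 ν M1} (β : d.B.O →ₐ[ℂ] d1.B.O) (e : d1.r = d.r)
    (hw : ∀ i, ∃ c, β (d.B.z (Sum.inl i)) = algebraMap ℂ _ c)
    (hN : ∀ b a, d1.Nn b a = d.Nn (b.res β) fun i => a (i.cast e.symm)) :
    d1.ParAll (β g) a1 := by
  let c := finCongr e
  have k : ∀ b (A : Matrix (Fin d.r) (Fin d.r) ℂ) a, d1.Nn b (A.submatrix c c *ᵥ a) =
      d.Nn (b.res β) (A *ᵥ fun i => a (i.cast e.symm)) := fun b A a => by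
    rw [hN, submatrix_mulVec_equiv]
    rfl
  refine ⟨fun b0 => ?_, fun b n hn => ?_⟩
  · obtain ⟨U, A, h1, h2, h3, h4⟩ := h.fr (b0.res β)
    refine ⟨Pt.res β ⁻¹' U, fun b => (A (b.res β)).submatrix c c,
      h1.preimage (Pt.continuous_res β), h2, fun b hb => ⟨?_, fun i j =>
        d.B.diff_res d1.B β (F := fun q => A q (c i) (c j)) ((h3 _ hb).2 _ _)⟩,
      fun b hb b' hb' => ?_⟩
    · rw [det_submatrix_equiv_self]
      exact (h3 _ hb).1
    · have := h4 _ hb _ hb' (funext fun i => by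
        obtain ⟨a, ha⟩ := hw i
        simp only [Dat.w, d.B.π_eq, Pt.res_apply, ha, Pt.map_alg])
      simp only [det_submatrix_equiv_self, k]
      exact ⟨fun a => this.1 _, this.2⟩
  · refine ((h.iso (b.res β) n hn).image fun A => A.submatrix c c).subset fun A hA =>
      ⟨A.submatrix c.symm c.symm, ⟨fun a => ?_, ?_⟩, by simp⟩
    · have := hA.1 fun i => a (c i)
      rw [show A = (A.submatrix c.symm c.symm).submatrix c c by simp, k, hN] at this
      exact this
    · rw [det_submatrix_equiv_self]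
      exact hA.2

variable [IsScalarTower ℂ K M]

theorem Dat.ParData.slice (H : CurveIso ν) {d : Dat (ε ⊕ γ) K ν M} {g : d.B.O} (hg : IsUnit g) {a1 : ℕ}
    (ha : 0 < a1) (h : d.ParData g a1) {Om : Type} [Field Om] [IsAlgClosed Om] (ψ : M →+* Om)
    (j : γ) : Fo.DO (acl (adj (img ℂ ψ) (range fun i : {i : ε ⊕ γ // i ≠ Sum.inr j} =>
      ψ (algebraMap K M (d.B.z i))))) (acl (img K ψ)) (ψ.fieldRange ⊔ acl (img K ψ)) := by
  classical
  set φ : K →+* Om := ψ.comp (algebraMap K M)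
  let z : ε ⊕ γ → Om := fun i => φ (d.B.z i)
  set L := acl (adj (img ℂ ψ) (range fun i : {i : ε ⊕ γ // i ≠ Sum.inr j} => z i))
  have eC : ∀ a, φ (algebraMap ℂ K a) = ψ (algebraMap ℂ M a) := fun a =>
    congrArg ψ (IsScalarTower.algebraMap_apply ℂ K M a).symm
  have hz : AlgebraicIndependent (img ℂ ψ) z :=
    (Trd_map_iff φ fun y => exists_congr fun a => by rw [eC]; rfl).2 d.B.basis.1
  have CL : img ℂ ψ ≤ L := (le_adj _ _).trans (le_acl _)
  have zK : ∀ i, z i ∈ img K ψ := fun i => ⟨_, rfl⟩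
  have LK : L ≤ acl (img K ψ) := acl_mono (adj_le (by rintro _ ⟨a, rfl⟩; exact ⟨_, eC a⟩)
    (by rintro _ ⟨i, rfl⟩; exact zK i))
  have ind : ∀ (T : Set K) (F : Subfield Om), L ≤ F → (∀ a ∈ T, φ a ∈ F) →
      ∀ a ∈ IntermediateField.adjoin ℂ T, φ a ∈ F := fun T F h1 h2 =>
    (Subfield.closure_le (t := F.comap φ)).2 fun a ha => ha.elim
      (by rintro ⟨b, rfl⟩; exact h1 (CL ⟨b, (eC b).symm⟩)) (h2 a)
  have := d.B.ft
  have := d.T.X.ft
  obtain ⟨G, hG⟩ := Algebra.FiniteType.out (R := ℂ) (A := d.B.O)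
  set G1 := G ∪ Finset.univ.image d.B.z
  obtain ⟨s1, hs1⟩ := exists_const G1
  obtain ⟨s2, hs2⟩ := exists_const (G1.image d.T.inc ∪ insert d.T.finX.w
    (Finset.univ.image d.T.X.z ∪ Finset.univ.image d.τ))
  obtain ⟨c, hc, hs⟩ := exists_twist (ψ.comp (algebraMap ℂ M))
    (hz.comp _ (Subtype.val_injective (p := fun i => i ≠ Sum.inr j))) (s1 ∪ s2)
  replace hc : c.fieldRange = L := hc
  obtain ⟨y, hy⟩ := IsAlgClosed.exists_pow_nat_eq (z (Sum.inr j) ^ 3 - z (Sum.inr j)) two_pos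
  set K1 := adj (img K ψ ⊔ L) {y}
  have KK : img K ψ ≤ K1 := le_sup_left.trans (le_adj _ _)
  have LK1 : L ≤ K1 := le_sup_right.trans (le_adj _ _)
  have K1K : K1 ≤ acl (img K ψ) := adj_le (sup_le (le_acl _) LK) fun _ e => e ▸ mem_acl.2
    (IsAlgebraic.of_pow two_pos (hy ▸ mem_acl.1 (le_acl _ (sub_mem (pow_mem (zK _) 3) (zK _)))))
  set M1 := K1 ⊔ ψ.fieldRange
  have cK : ∀ a, c a ∈ K1 := fun a => LK1 (hc ▸ ⟨a, rfl⟩)
  let _ : Algebra ℂ K1 := (c.codRestrict K1 cK).toAlgebra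
  let _ : Algebra ℂ M1 := (c.codRestrict M1 fun a => (le_sup_left : K1 ≤ M1) (cK a)).toAlgebra
  let _ : Algebra K1 M1 := (Subfield.inclusion (le_sup_left : K1 ≤ M1)).toAlgebra
  let _ : Algebra K K1 := (φ.codRestrict K1 fun a => KK ⟨a, rfl⟩).toAlgebra
  let _ : Algebra M M1 := (ψ.codRestrict M1 fun a => (le_sup_right : _ ≤ M1) ⟨a, rfl⟩).toAlgebra
  let _ : Algebra K M1 := ((algebraMap M M1).comp (algebraMap K M)).toAlgebra
  have : IsScalarTower ℂ K1 M1 := .of_algebraMap_eq fun _ => rfl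
  have : IsScalarTower K M M1 := .of_algebraMap_eq fun _ => rfl
  have : IsScalarTower K K1 M1 := .of_algebraMap_eq fun _ => rfl
  have alg : ∀ {k : Type} [Field k] [Algebra k K1] (F : Subfield Om),
      (∀ x ∈ F, ∃ a, (algebraMap k K1 a : Om) = x) → ∀ x : K1, x.1 ∈ acl F → IsAlgebraic k x :=
    fun {k} _ _ F hF x hx => by
      let f := K1.subtype.comp (algebraMap k K1)
      exact IsAlgebraic.of_ringHom_of_comp_eq f.rangeRestrictField K1.subtype
        (mem_acl.1 (acl_mono (F' := f.fieldRange) hF hx)) f.rangeRestrictField_bijective.2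
        K1.subtype.injective rfl
  have : Algebra.IsAlgebraic K K1 := ⟨fun x => alg _ (fun _ h => h) x (K1K x.2)⟩
  have gen : IntermediateField.adjoin M (range (algebraMap K1 M1)) = ⊤ := by
    refine top_unique fun x _ => ?_
    obtain ⟨w, h1, h2⟩ : x.1 ∈ (IntermediateField.adjoin M
        (range (algebraMap K1 M1))).toSubfield.map M1.subtype := by
      refine (sup_le (fun a ha => ?_) ?_ : M1 ≤ _) x.2
      · exact ⟨_, IntermediateField.subset_adjoin _ _ ⟨⟨a, ha⟩, rfl⟩, rfl⟩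
      · rintro _ ⟨a, rfl⟩
        exact ⟨_, IntermediateField.algebraMap_mem _ a, rfl⟩
    exact Subtype.ext h2 ▸ h1
  have sub : ∀ T : Set K1, L ≤ (IntermediateField.adjoin ℂ T).toSubfield.map K1.subtype :=
    fun T a ha => by
      obtain ⟨b, rfl⟩ : a ∈ c.fieldRange := hc ▸ ha
      exact ⟨_, IntermediateField.algebraMap_mem _ b, rfl⟩
  let t : Unit → K1 := fun _ => algebraMap K K1 (d.B.z (Sum.inr j))
  have ht : IsTranscendenceBasis ℂ t := by
    have h1 : AlgebraicIndependent ℂ t := by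
      refine (Trd_map_iff K1.subtype (k := L) fun y => hc ▸ Iff.rfl).1
        (algebraicIndependent_unique_type_iff.2 fun h1 => ?_)
      refine (Trd_indep hz).notMem_closure_sdiff_of_mem (mem_range_self (Sum.inr j))
        (Matroid.closure_subset_closure _ ?_
          (Trd_mem_closure.2 (mem_acl.1 (acl_le le_rfl (mem_acl.2 h1)))))
      rintro _ ⟨i, rfl⟩
      exact ⟨⟨i, rfl⟩, fun e => i.2 (hz.injective e)⟩
    refine h1.isTranscendenceBasis_iff_isAlgebraic.2
      (IntermediateField.isAlgebraic_adjoin_iff_top.1 ⟨fun x => alg (adj L {z (Sum.inr j)})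
        (fun a ha => ?_) x (acl_le ?_ (K1K x.2))⟩)
    · obtain ⟨w, h1, h2⟩ := adj_le (sub (range t)) (by
        rintro _ rfl
        exact ⟨t (), IntermediateField.subset_adjoin _ _ ⟨(), rfl⟩, rfl⟩) ha
      exact ⟨⟨w, h1⟩, h2⟩
    · rintro _ ⟨a, rfl⟩
      exact mem_acl.2 ((d.B.basis.isAlgebraic_field.isAlgebraic a).ringHom_of_comp_eq
        ((φ.comp (algebraMap (IntermediateField.adjoin ℂ (range fun i => (d.B.z i : K))) K)).codRestrict
          (adj L {z (Sum.inr j)}) fun b => ind (range fun i => (d.B.z i : K)) _ (le_adj _ _) (by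
          rintro _ ⟨i, rfl⟩
          by_cases hi : i = Sum.inr j
          · exact mem_adj _ (congrArg z hi)
          · exact le_adj _ _ (le_acl _ (mem_adj _ ⟨⟨i, hi⟩, rfl⟩))) b b.2) φ
        (RingHom.injective _) rfl)
  have fg : (⊤ : IntermediateField ℂ K1).FG := by
    obtain ⟨T, hT⟩ := d.B.fg
    refine ⟨insert ⟨y, mem_adj _ rfl⟩ (T.image (algebraMap K K1)), top_unique fun x _ => ?_⟩
    obtain ⟨w, h1, h2⟩ : x.1 ∈ (IntermediateField.adjoin ℂ (↑(insert ⟨y, mem_adj _ rfl⟩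
        (T.image (algebraMap K K1))) : Set K1)).toSubfield.map K1.subtype := by
      refine (adj_le (sup_le ?_ (sub _)) ?_ : K1 ≤ _) x.2
      · rintro _ ⟨a, rfl⟩
        exact ind T _ (sub _) (fun b hb => ⟨algebraMap K K1 b, IntermediateField.subset_adjoin _ _
          (Finset.mem_insert_of_mem (Finset.mem_image_of_mem _ hb)), rfl⟩) a (hT ▸ trivial)
      · rintro _ rfl
        exact ⟨_, IntermediateField.subset_adjoin _ _ (Finset.mem_insert_self _ _), rfl⟩
    exact Subtype.ext h2 ▸ h1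
  obtain ⟨dK, hd⟩ := Dual.exists ht
  obtain ⟨h0, hη⟩ := plu_ell hd (y := ⟨y, mem_adj _ rfl⟩) (Subtype.ext hy)
  obtain ⟨β, hβ⟩ := hs1 K1 ((algebraMap K K1).comp d.B.O.subtype) fun a ha =>
    Subtype.ext ((eC a).trans (hs a (Finset.mem_union_left _ ha)).symm)
  obtain ⟨S, hS⟩ := hs2 M1 ((algebraMap M M1).comp d.T.X.O.subtype) fun a ha =>
    Subtype.ext (hs a (Finset.mem_union_right _ ha)).symm
  have hSβ : S.comp d.T.inc = (IsScalarTower.toAlgHom ℂ K1 M1).comp β :=
    AlgHom.ext_of_adjoin_eq_top hG fun a ha => by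
      have ha' : a ∈ G1 := Finset.mem_union_left _ ha
      refine (hS _ (Finset.mem_union_left _ (Finset.mem_image_of_mem _ ha'))).trans ?_
      change algebraMap M M1 (d.T.inc a) = algebraMap K1 M1 (β a)
      rw [hβ a ha', d.T.inc_eq]
      rfl
  obtain ⟨d1, β1, A1, e, b1, b2, b3⟩ := d.pull gen (smooth_curve fg ht) hd one_pos h0 hη β S
    (fun a => DFunLike.congr_fun hSβ a) (fun i => hS _ (by simp)) (hS _ (by simp))
    (fun i => hS _ (by simp)) 1 (by simp)
  obtain rfl : A1 = 1 := by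
    ext i j
    rw [b2]
    simp only [one_apply]
    split_ifs <;> rfl
  have hI := Dat.ParAll.isotriv H (hg.map β1) ha (h.all β1 e (fun i => ?_) fun b a => by
    rw [b3, Matrix.map_one _ (map_zero b) (map_one b), one_mulVec]) Om M1.subtype
  · have e1 : img ℂ M1.subtype = L := hc
    have e2 : acl (img K1 M1.subtype) = acl (img K ψ) :=
      le_antisymm (acl_le (by rintro _ ⟨a, rfl⟩; exact K1K a.2))
        (acl_mono fun a ha => ⟨⟨a, KK ha⟩, rfl⟩)
    rwa [e1, e2, Subfield.fieldRange_subtype, sup_right_comm, sup_eq_right.2 K1K, sup_comm] at hI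
  · obtain ⟨a, ha⟩ : z (Sum.inl i) ∈ c.fieldRange :=
      hc ▸ le_acl _ (mem_adj _ ⟨⟨_, Sum.inl_ne_inr⟩, rfl⟩)
    refine ⟨a, Subtype.ext ((b1 _).trans ((hβ _ (by simp [G1])).trans (Subtype.ext ha.symm)))⟩

end Pool.Agent.Lib.MP_5c318e_ag
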