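import Pool.Agent.Lib.MP_5c318e_ag.Va.IDefs
import Pool.Agent.Lib.MP_5c318e_ag.S.Top
import Pool.Agent.Lib.MP_5c318e_ag.S.CCov

/-! The coordinates `w` lie in the field of ratios: the inequality with their number. -/

set_option autoImplicit false
set_option linter.unusedSectionVars false

namespace Pool.Agent.Lib.MP_5c318e_ag

open Set

variable {ε γ ν K M : Type} [Fintype ε] [DecidableEq ε] [Fintype γ] [DecidableEq γ] [Fintype ν]
  [DecidableEq ν] [Field K] [Algebra ℂ K] [Field M] [Algebra ℂ M] [Algebra K M]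
  [IsScalarTower ℂ K M]

theorem exists_big (hM : (⊤ : IntermediateField K M).FG) (h : kod K M ≠ ⊥) :
    ∃ m, 3 ≤ m ∧ Big K M m := by
  have : CharZero K := charZero_of_injective_algebraMap (algebraMap ℂ K).injective
  obtain ⟨n0, x, hx⟩ := exists_basis_of_fg hM
  obtain ⟨dx, hX⟩ := Dual.exists hx
  obtain ⟨n, e, -⟩ := kod_eq_nat hX.isFr h
  obtain ⟨m, hm, ψ, h0, hψ, a, ha, haψ⟩ := (le_kod_iff hX.isFr).1 e.ge
  refine ⟨m * 3, by omega, n, a, e, ha, fun ι _ _ D hD => ?_⟩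
  obtain ⟨c, c0, hc⟩ := hD.change hX.isFr
  refine ⟨ψ ^ 3 * c ^ (m * 3), mul_ne_zero (pow_ne_zero _ h0) (pow_ne_zero _ c0),
    (plu_iff hD).2 ((hc _ _).1 (hψ.pow 3)), fun j => ?_⟩
  have h4 := (haψ j).mul (hψ.pow 2)
  rw [show m + m * 2 = m * 3 by ring] at h4
  convert (plu_iff hD).2 ((hc _ _).1 h4) using 1
  ring

theorem EndV.kod {d : Dat (ε ⊕ γ) K ν M} (H : EndV d) (h : Big K M d.m) :
    kod K M + ((Fintype.card ε : Cardinal) : WithBot Cardinal) ≤ kod ℂ M := by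
  have : CharZero K := charZero_of_injective_algebraMap (algebraMap ℂ K).injective
  have hM := d.T.X.dual.isFr
  obtain ⟨n, a, e, ha, hb⟩ := h
  obtain ⟨ψ, h0, hψ, haψ⟩ := hb ν d.T.dx d.T.dual.isFr
  obtain ⟨q, hq, T, ⟨s0, hs0⟩, hT, halg⟩ := H
  have η0 : (d.η : K) ≠ 0 := fun h => d.unit.ne_zero (Subtype.ext h)
  have hη1 : algebraMap K M d.η ≠ 0 := (map_ne_zero _).2 η0
  have key : ∀ s ∈ T, PluD d.T.X.der q (s * algebraMap K M d.η) := fun s hs =>
    (plu_iff hM).1 ((hT s hs).2 _ d.plu).1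
  have hw : AlgebraicIndependent ℂ fun i : Fin (Fintype.card ε) =>
      (d.B.z (Sum.inl ((Fintype.equivFin ε).symm i)) : K) :=
    d.B.dual.basis.1.comp (fun i => Sum.inl ((Fintype.equivFin ε).symm i))
      (Sum.inl_injective.comp (Fintype.equivFin ε).symm.injective)
  have h3 := add_le_trk (R := ratios ℂ M) hw (fun i => (mem_ratios_iff hM).2
    ⟨q, hq, _, _, (plu_iff hM).1 (((hT s0 hs0).2 _ d.plu).2 _), key s0 hs0,
      mul_ne_zero (hT s0 hs0).1 hη1, by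
      rw [map_mul, mul_div_mul_left _ _ (hT s0 hs0).1, mul_div_cancel_left₀ _ hη1]⟩) ha
    fun j => by
      have h5 := halg _ _ (haψ j) hψ
      rw [mul_div_cancel_right₀ _ h0] at h5
      refine alg_closure_iff.1 (Trd_alg_trans (fun g hg => Trd_alg_of_mem
        (Subfield.subset_closure (Or.inr ?_))) (alg_closure_iff.2 h5))
      obtain ⟨s, hs, t, ht, rfl⟩ := hg
      exact (mem_ratios_iff hM).2 ⟨q, hq, _, _, key s hs, key t ht,
        mul_ne_zero (hT t ht).1 hη1, (mul_div_mul_right _ _ hη1).symm⟩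
  rw [e]
  have h6 := (le_kod_iff_trk hM (n := n + Fintype.card ε)).2 ⟨(kod_ne_bot_iff hM).2
    ⟨q, hq, _, mul_ne_zero (hT s0 hs0).1 hη1, key s0 hs0⟩, h3⟩
  exact_mod_cast h6

end Pool.Agent.Lib.MP_5c318e_ag
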