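import Pool.Agent.Lib.MP_5c318e_ag.Va.IDefs
import Pool.Agent.Lib.MP_5c318e_ag.S.CCov
import Pool.Agent.Lib.MP_5c318e_ag.Fo.Chain

/-! The bound for the variation from the fields of definition along the coordinate lines. -/

set_option autoImplicit false

namespace Pool.Agent.Lib.MP_5c318e_ag

open Set

theorem var_le_of_slice {Om ε γ ν : Type} [Field Om] [Algebra ℂ Om] [IsAlgClosed Om] [Fintype ε]
    [DecidableEq ε] [Fintype γ] [DecidableEq γ] [Fintype ν] [DecidableEq ν]
    {K M : IntermediateField ℂ Om} (hKM : K ≤ M)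
    (d : Dat (ε ⊕ γ) K ν (IntermediateField.extendScalars hKM))
    (h : ∀ (ψ : IntermediateField.extendScalars hKM →+* Om) (j : γ),
      Fo.DO (acl (adj (img ℂ ψ) (range fun i : {i : ε ⊕ γ // i ≠ Sum.inr j} =>
        ψ (algebraMap K _ (d.B.z i))))) (acl (img K ψ)) (ψ.fieldRange ⊔ acl (img K ψ))) :
    Var (aclC K) (M ⊔ aclC K) ≤ Fintype.card ε := by
  classical
  let ψ : IntermediateField.extendScalars hKM →+* Om := algebraMap _ Om
  have e1 : img ℂ ψ = C0 Om := rfl
  have e2 : img K ψ = K.toSubfield :=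
    Subfield.ext fun y => ⟨fun ⟨a, ha⟩ => ha ▸ a.2, fun hy => ⟨⟨y, hy⟩, rfl⟩⟩
  have e3 : ψ.fieldRange = M.toSubfield :=
    Subfield.ext fun y => ⟨fun ⟨a, ha⟩ => ha ▸ a.2, fun hy => ⟨⟨y, hy⟩, rfl⟩⟩
  have e4 : (M ⊔ aclC K).toSubfield = M.toSubfield ⊔ acl K.toSubfield := by
    rw [IntermediateField.sup_toSubfield, Fo.aclC_eq]
  obtain ⟨S, hS⟩ := d.T.toRel.fg
  refine Fo.var_le (γ := γ) (z := fun i => ((d.B.z i : K) : Om))
    (d.B.basis.1.map' (f := K.val) K.val.injective) (fun i => (d.B.z i : K).2) (fun y hy => ?_)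
    (S.image ψ) ?_ fun j => ?_
  · have := (Fo.mem_acl_map K.val.toRingHom).2 ((mem_acl (F := adj (C0 K)
      (range fun i => (d.B.z i : K)))).2 (d.B.basis.isAlgebraic_field.1 ⟨y, hy⟩))
    rw [Fo.adj_map, ← range_comp] at this
    refine acl_mono (Fo.adj_mono ?_ subset_rfl) this
    rintro _ ⟨_, ⟨c, rfl⟩, rfl⟩
    exact ⟨c, rfl⟩
  · rw [e4, Finset.coe_image]
    refine le_antisymm (sup_le (fun y hy => ?_) (le_adj _ _))
      (adj_le le_sup_right (forall_mem_image.2 fun a _ => (le_sup_left : M.toSubfield ≤ _) a.2))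
    have : (⟨y, hy⟩ : IntermediateField.extendScalars hKM) ∈ IntermediateField.adjoin K (S : Set _) :=
      hS ▸ IntermediateField.mem_top
    change ψ ⟨y, hy⟩ ∈ _
    generalize (⟨y, hy⟩ : IntermediateField.extendScalars hKM) = a at this
    induction this using IntermediateField.adjoin_induction with
    | mem a ha => exact mem_adj _ ⟨a, ha, rfl⟩
    | algebraMap a => exact le_adj _ _ (le_acl _ a.2)
    | add a b _ _ h1 h2 => rw [map_add]; exact add_mem h1 h2
    | inv a _ h1 => rw [map_inv₀]; exact inv_mem h1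
    | mul a b _ _ h1 h2 => rw [map_mul]; exact mul_mem h1 h2
  · have := h ψ j
    rw [e1, e2, e3, ← e4] at this
    rwa [image_eq_range]

end Pool.Agent.Lib.MP_5c318e_ag
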