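import Pool.Agent.Lib.MP_5c318e_ag.Va.Slice
import Pool.Agent.Lib.MP_5c318e_ag.Va.VarA

/-! The variation is bounded by the number of coordinates that are not parallel. -/

set_option autoImplicit false

namespace Pool.Agent.Lib.MP_5c318e_ag

theorem var_le {Om ε γ ν : Type} [Field Om] [Algebra ℂ Om] [IsAlgClosed Om] [Fintype ε]
    [DecidableEq ε] [Fintype γ] [DecidableEq γ] [Fintype ν] [DecidableEq ν] (H : CurveIso ν)
    {K M : IntermediateField ℂ Om} (hKM : K ≤ M)
    {d : Dat (ε ⊕ γ) K ν (IntermediateField.extendScalars hKM)} {g : d.B.O} (hg : IsUnit g) {a1 : ℕ}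
    (ha : 0 < a1) (h : d.ParData g a1) : Var (aclC K) (M ⊔ aclC K) ≤ Fintype.card ε :=
  var_le_of_slice hKM d fun ψ j => h.slice H hg ha ψ j

end Pool.Agent.Lib.MP_5c318e_ag
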